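import Pool.Agent.H65Z.HC.Meas

set_option autoImplicit false

namespace Pool.Agent.H65Z.HC

open MeasureTheory Set Filter
open scoped ENNReal

abbrev W : Type := List ℕ
abbrev Nd : Type := List W

/-- The word `t` agrees somewhere with every function of `F`. -/
def Matches (t : W) (F : Finset (ℕ → ℕ)) : Prop := ∀ f ∈ F, ∃ j, t[j]? = some (f j)

theorem Matches.mono {t : W} {F G : Finset (ℕ → ℕ)} (h : Matches t G) (hFG : F ⊆ G) :
    Matches t F := fun f hf => h f (hFG hf)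

variable {Ω : Type} [MeasurableSpace Ω] {μ : Measure Ω}

def IsCond (μ : Measure Ω) (p : Set Ω) (S : Nd → Set Ω) : Prop :=
  (∀ᵐ ω ∂μ, ω ∈ p → ∃ σ, ω ∈ S σ) ∧
    ∀ F, ∀ᵐ ω ∂μ, ω ∈ p → ∀ σ, ω ∈ S σ → ∃ t σ', Matches t F ∧ σ ++ [t] <+: σ' ∧ ω ∈ S σ'

def IsLe (μ : Measure Ω) (p : Set Ω) (S' S : Nd → Set Ω) : Prop :=
  ∀ᵐ ω ∂μ, ω ∈ p → ∀ σ, ω ∈ S' σ → ω ∈ S σ

theorem IsCond.mono {p q : Set Ω} {S : Nd → Set Ω} (h : IsCond μ p S) (hq : q ⊆ p) :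
    IsCond μ q S :=
  ⟨h.1.mono fun _ h1 h2 => h1 (hq h2), fun F => (h.2 F).mono fun _ h1 h2 => h1 (hq h2)⟩

theorem IsLe.mono {p q : Set Ω} {S' S : Nd → Set Ω} (h : IsLe μ p S' S) (hq : q ⊆ p) :
    IsLe μ q S' S := Filter.Eventually.mono h fun _ h1 h2 => h1 (hq h2)

structure Cd (μ : Measure Ω) where
  p : Set Ω
  S : Nd → Set Ω
  mp : MeasurableSet p
  mS : ∀ σ, MeasurableSet (S σ)
  cond : IsCond μ p S

namespace Cd

def Le (x y : Cd μ) : Prop := x.p ⊆ y.p ∧ IsLe μ x.p x.S y.S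

theorem le_refl (x : Cd μ) : x.Le x := ⟨Subset.rfl, Eventually.of_forall fun _ _ _ h => h⟩

theorem Le.trans {x y z : Cd μ} (h1 : x.Le y) (h2 : y.Le z) : x.Le z := by
  refine ⟨h1.1.trans h2.1, ?_⟩
  filter_upwards [h1.2, h2.2] with ω a b hω σ hσ
  exact b (h1.1 hω) σ (a hω σ hσ)

def restrict (x : Cd μ) (q : Set Ω) (hq : MeasurableSet q) : Cd μ :=
  ⟨x.p ∩ q, x.S, x.mp.inter hq, x.mS, x.cond.mono inter_subset_left⟩

theorem restrict_le (x : Cd μ) (q : Set Ω) (hq : MeasurableSet q) : (x.restrict q hq).Le x :=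
  ⟨inter_subset_left, Eventually.of_forall fun _ _ _ h => h⟩

def above (x : Cd μ) (ρ : Nd) : Cd μ where
  p := x.p ∩ ⋃ σ, x.S σ ∩ {_ω | ρ <+: σ}
  S := fun σ => x.S σ ∩ {_ω | ρ <+: σ}
  mp := x.mp.inter (MeasurableSet.iUnion fun σ => (x.mS σ).inter (MeasurableSet.const _))
  mS := fun σ => (x.mS σ).inter (MeasurableSet.const _)
  cond := by
    refine ⟨Eventually.of_forall fun ω hω => mem_iUnion.1 hω.2, fun F => ?_⟩
    filter_upwards [x.cond.2 F] with ω h hω σ hσ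
    obtain ⟨t, σ', h1, h2, h3⟩ := h hω.1 σ hσ.1
    exact ⟨t, σ', h1, h2, h3, (hσ.2.trans (List.prefix_append _ _)).trans h2⟩

theorem above_le (x : Cd μ) (ρ : Nd) : (x.above ρ).Le x :=
  ⟨inter_subset_left, Eventually.of_forall fun _ _ _ h => h.1⟩

theorem step (x : Cd μ) (F : Finset (ℕ → ℕ)) {σ : Nd} {q : Set Ω}
    (h : μ (x.p ∩ x.S σ ∩ q) ≠ 0) :
    ∃ t σ', Matches t F ∧ σ ++ [t] <+: σ' ∧ μ (x.p ∩ x.S σ' ∩ q) ≠ 0 := by
  obtain ⟨⟨t, σ'⟩, hi⟩ := pick h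
    (fun i : W × Nd => {ω | Matches i.1 F ∧ σ ++ [i.1] <+: i.2 ∧ ω ∈ x.S i.2}) (by
      filter_upwards [x.cond.2 F] with ω h1 h2
      obtain ⟨t, σ', h3⟩ := h1 h2.1.1 σ h2.1.2
      exact ⟨(t, σ'), h3⟩)
  obtain ⟨ω, hω⟩ := nonempty_of_measure_ne_zero hi
  refine ⟨t, σ', hω.2.1, hω.2.2.1, fun h0 => hi (measure_mono_null ?_ h0)⟩
  rintro ω ⟨⟨⟨h1, _⟩, h3⟩, h4⟩
  exact ⟨⟨h1, h4.2.2⟩, h3⟩

theorem long (x : Cd μ) (hx : μ x.p ≠ 0) (k : ℕ) :
    ∃ σ : Nd, k ≤ σ.length ∧ μ (x.p ∩ x.S σ) ≠ 0 := by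
  induction k with
  | zero =>
    obtain ⟨σ, h⟩ := pick hx x.S x.cond.1
    exact ⟨σ, Nat.zero_le _, h⟩
  | succ k ih =>
    obtain ⟨σ, h1, h2⟩ := ih
    obtain ⟨t, σ', _, h4, h5⟩ := x.step ∅ (σ := σ) (q := univ) (by simpa using h2)
    refine ⟨σ', ?_, by simpa using h5⟩
    have := h4.length_le
    simp at this
    omega

end Cd

/-- A condition with a root. -/
structure Cell (μ : Measure Ω) where
  x : Cd μ
  σ : Nd
  inr : x.p ⊆ x.S σ
  root : ∀ τ ω, ω ∈ x.S τ → σ <+: τ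

def Cd.cell (x : Cd μ) (σ : Nd) : Cell μ where
  x := (x.above σ).restrict (x.S σ) (x.mS σ)
  σ := σ
  inr := fun _ h => ⟨h.2, List.prefix_rfl⟩
  root := fun _ _ h => h.2

theorem Cd.cell_le (x : Cd μ) (σ : Nd) : (x.cell σ).x.Le x :=
  (Cd.restrict_le _ _ (x.mS σ)).trans (x.above_le σ)

theorem Cd.cell_p (x : Cd μ) (σ : Nd) : (x.cell σ).x.p = x.p ∩ x.S σ := by
  ext ω
  constructor
  · exact fun h => ⟨h.1.1, h.2⟩
  · exact fun h => ⟨⟨h.1, mem_iUnion.2 ⟨σ, h.2, List.prefix_rfl⟩⟩, h.2⟩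

def Cell.restrict (c : Cell μ) (q : Set Ω) (hq : MeasurableSet q) : Cell μ where
  x := c.x.restrict q hq
  σ := c.σ
  inr := fun _ h => c.inr h.1
  root := c.root

theorem Cell.restrict_le (c : Cell μ) (q : Set Ω) (hq : MeasurableSet q) :
    (c.restrict q hq).x.Le c.x := Cd.restrict_le _ _ hq

/-- The properties of the relation: the condition decides the value at `n` to be `m`. -/
structure IsDec (r0 : Cd μ) (Dec : ℕ → ℕ → Cd μ → Prop) : Prop where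
  mono : ∀ n m x y, x.Le y → μ x.p ≠ 0 → Dec n m y → Dec n m x
  dense : ∀ n x, x.Le r0 → μ x.p ≠ 0 → ∃ y m, y.Le x ∧ μ y.p ≠ 0 ∧ Dec n m y
  uniq : ∀ n m m' x, x.Le r0 → μ x.p ≠ 0 → Dec n m x → Dec n m' x → m = m'

theorem split_cells [IsFiniteMeasure μ] {r0 : Cd μ} {Dec : ℕ → ℕ → Cd μ → Prop}
    (hD : IsDec r0 Dec) (n : ℕ) (x : Cd μ) (hx : x.Le r0) (ρ : Nd)
    (hρ : ∀ τ ω, ω ∈ x.S τ → ρ <+: τ) :
    ∃ (c : ℕ → Cell μ) (v : ℕ → ℕ), (∀ i, (c i).x.Le x) ∧ (∀ i, ρ <+: (c i).σ) ∧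
      (∀ i j ω, ω ∈ (c i).x.p → ω ∈ (c j).x.p → i = j) ∧
      (∀ᵐ ω ∂μ, ω ∈ x.p → ∃ i, ω ∈ (c i).x.p) ∧
      ∀ i, μ (c i).x.p ≠ 0 → Dec n (v i) (c i).x := by
  let ι := {a : Cell μ × ℕ // a.1.x.Le x ∧ ρ <+: a.1.σ ∧ (μ a.1.x.p ≠ 0 → Dec n a.2 a.1.x)}
  have : Nonempty ι := by
    refine ⟨⟨((x.cell ρ).restrict ∅ MeasurableSet.empty, 0),
      (Cell.restrict_le _ _ _).trans (x.cell_le ρ), List.prefix_rfl, fun h => absurd ?_ h⟩⟩
    show μ (_ ∩ ∅) = 0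
    simp
  obtain ⟨e, he⟩ := exhaust (μ := μ) (fun a : ι => a.1.1.x.p) (fun a => a.1.1.x.mp)
  set A : ℕ → Set Ω := fun i => (e i).1.1.x.p with hA
  have hAm : ∀ i, MeasurableSet (A i) := fun i => (e i).1.1.x.mp
  refine ⟨fun i => (e i).1.1.restrict (disjointed A i) (MeasurableSet.disjointed hAm i),
    fun i => (e i).1.2, fun i => (Cell.restrict_le _ _ _).trans (e i).2.1, fun i => (e i).2.2.1,
    ?_, ?_, ?_⟩
  · intro i j ω hi hj
    by_contra hij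
    exact Set.disjoint_left.1 (disjoint_disjointed A hij) hi.2 hj.2
  · have hU : MeasurableSet (⋃ i, A i)ᶜ := (MeasurableSet.iUnion hAm).compl
    have h0 : μ (x.p ∩ (⋃ i, A i)ᶜ) = 0 := by
      by_contra hpos
      obtain ⟨y, m, hy1, hy2, hy3⟩ := hD.dense n (x.restrict _ hU)
        ((Cd.restrict_le _ _ _).trans hx) hpos
      obtain ⟨σ, _, hσ⟩ := y.long hy2 0
      have hle : (y.cell σ).x.Le x := (y.cell_le σ).trans (hy1.trans (Cd.restrict_le _ _ _))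
      have hpos' : μ (y.cell σ).x.p ≠ 0 := by rw [Cd.cell_p]; exact hσ
      have hρσ : ρ <+: σ := by
        obtain ⟨ω, h1, h2⟩ := exists_of_ae hpos' hle.2
        exact hρ σ ω (h2 h1 σ ((y.cell σ).inr h1))
      obtain ⟨ω, h1, h2⟩ := exists_of_ae hpos'
        (he ⟨(y.cell σ, m), hle, hρσ, fun h => hD.mono _ _ _ _ (y.cell_le σ) h hy3⟩)
      exact (hy1.1 ((y.cell_le σ).1 h1)).2 (mem_iUnion.2 (h2 h1))
    filter_upwards [measure_eq_zero_iff_ae_notMem.1 h0] with ω h1 h2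
    have h3 : ω ∈ ⋃ i, A i := by
      by_contra h3
      exact h1 ⟨h2, h3⟩
    rw [← iUnion_disjointed] at h3
    obtain ⟨i, hi⟩ := mem_iUnion.1 h3
    exact ⟨i, disjointed_subset A i hi, hi⟩
  · intro i hi
    refine hD.mono _ _ _ _ (Cell.restrict_le _ _ _) hi ((e i).2.2.2 fun h0 => hi ?_)
    exact measure_mono_null inter_subset_left h0

abbrev Hs : Type := List (W × ℕ)

/-- The fusion tree. -/
structure IsFusion (r0 : Cd μ) (Dec : ℕ → ℕ → Cd μ → Prop) (cl : Hs → Cell μ) (val : Hs → ℕ) :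
    Prop where
  pos : μ (cl []).x.p ≠ 0
  top : (cl []).x.Le r0
  le : ∀ a u, (cl (a :: u)).x.Le (cl u).x
  pre : ∀ a u, (cl u).σ ++ [a.1] <+: (cl (a :: u)).σ
  disj : ∀ t i j u ω, ω ∈ (cl ((t, i) :: u)).x.p → ω ∈ (cl ((t, j) :: u)).x.p → i = j
  cov : ∀ t u, ∀ᵐ ω ∂μ, ω ∈ (cl u).x.p → ∀ σ', (cl u).σ ++ [t] <+: σ' → ω ∈ (cl u).x.S σ' →
    ∃ i, ω ∈ (cl ((t, i) :: u)).x.p
  dec : ∀ a u, μ (cl (a :: u)).x.p ≠ 0 → Dec u.length (val (a :: u)) (cl (a :: u)).x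

theorem exists_fusion [IsFiniteMeasure μ] {r0 : Cd μ} (h0 : μ r0.p ≠ 0)
    {Dec : ℕ → ℕ → Cd μ → Prop} (hD : IsDec r0 Dec) : ∃ cl val, IsFusion r0 Dec cl val := by
  have key := fun (c : {c : Cell μ // c.x.Le r0}) (n : ℕ) (t : W) =>
    split_cells hD n (c.1.x.above (c.1.σ ++ [t])) ((Cd.above_le _ _).trans c.2) (c.1.σ ++ [t])
      (fun _ _ h => h.2)
  choose ch v h1 h2 h3 h4 h5 using key
  obtain ⟨σ0, _, hσ0⟩ := r0.long h0 0
  let cl : Hs → {c : Cell μ // c.x.Le r0} := fun u =>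
    List.rec (motive := fun _ => {c : Cell μ // c.x.Le r0}) ⟨r0.cell σ0, r0.cell_le σ0⟩
      (fun a u c => ⟨ch c u.length a.1 a.2,
        (h1 c u.length a.1 a.2).trans ((Cd.above_le _ _).trans c.2)⟩) u
  let val : Hs → ℕ := fun u => match u with
    | [] => 0
    | a :: u => v (cl u) u.length a.1 a.2
  refine ⟨fun u => (cl u).1, val, ?_, r0.cell_le σ0, ?_, ?_, ?_, ?_, ?_⟩
  · show μ (r0.cell σ0).x.p ≠ 0
    rw [Cd.cell_p]; exact hσ0
  · exact fun a u => (h1 (cl u) u.length a.1 a.2).trans (Cd.above_le _ _)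
  · exact fun a u => h2 (cl u) u.length a.1 a.2
  · exact fun t i j u ω => h3 (cl u) u.length t i j ω
  · intro t u
    filter_upwards [h4 (cl u) u.length t] with ω h hω σ' hσ' hS
    exact h ⟨hω, mem_iUnion.2 ⟨σ', hS, hσ'⟩⟩
  · exact fun a u => h5 (cl u) u.length a.1 a.2

namespace IsFusion

variable {r0 : Cd μ} {Dec : ℕ → ℕ → Cd μ → Prop} {cl : Hs → Cell μ} {val : Hs → ℕ}

theorem suffix (h : IsFusion r0 Dec cl val) {u v : Hs} (huv : u <:+ v) :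
    (cl v).x.Le (cl u).x ∧ (cl u).σ <+: (cl v).σ := by
  obtain ⟨w, rfl⟩ := huv
  induction w with
  | nil => exact ⟨Cd.le_refl _, List.prefix_rfl⟩
  | cons a w ih =>
    exact ⟨(h.le a (w ++ u)).trans ih.1,
      ih.2.trans ((List.prefix_append _ _).trans (h.pre a (w ++ u)))⟩

theorem le_top (h : IsFusion r0 Dec cl val) (u : Hs) : (cl u).x.Le r0 :=
  (h.suffix List.nil_suffix).1.trans h.top

theorem determ (h : IsFusion r0 Dec cl val) {ω : Ω} {σ : Nd} {v : Hs} (hv : ω ∈ (cl v).x.p)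
    (hvσ : (cl v).σ <+: σ) :
    ∀ u : Hs, ω ∈ (cl u).x.p → (cl u).σ <+: σ → u.length ≤ v.length → u <:+ v := by
  intro u
  induction u with
  | nil => exact fun _ _ _ => List.nil_suffix
  | cons a u ih =>
    intro hu huσ hlen
    simp only [List.length_cons] at hlen
    have h1 : u <:+ v := ih ((h.le a u).1 hu)
      (((List.prefix_append _ _).trans (h.pre a u)).trans huσ) (by omega)
    obtain ⟨w, rfl⟩ := h1
    have hw : w ≠ [] := by
      rintro rfl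
      simp at hlen
    obtain ⟨w', a', rfl⟩ : ∃ w' a', w = w' ++ [a'] :=
      ⟨w.dropLast, w.getLast hw, (List.dropLast_append_getLast hw).symm⟩
    have hs : a' :: u <:+ w' ++ [a'] ++ u := ⟨w', by simp⟩
    have h2 := h.suffix hs
    have h3 : (cl u).σ ++ [a'.1] <+: σ := (h.pre a' u).trans (h2.2.trans hvσ)
    have h4 : (cl u).σ ++ [a.1] <+: σ := (h.pre a u).trans huσ
    have h5 : a.1 = a'.1 := by
      have := List.prefix_of_prefix_length_le h4 h3 (by simp)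
      have := this.eq_of_length (by simp)
      simpa using this
    obtain ⟨t, i⟩ := a
    obtain ⟨t', i'⟩ := a'
    simp only at h5
    subst h5
    have := h.disj t i i' u ω hu (h2.1.1 hv)
    subst this
    exact hs

/-- If the root of `u` is an initial part of the root of `v`, then `v` extends `u`. -/
theorem determ' (h : IsFusion r0 Dec cl val) {ω : Ω} {u v : Hs} (hu : ω ∈ (cl u).x.p)
    (hv : ω ∈ (cl v).x.p) (huv : (cl u).σ <+: (cl v).σ) : u <:+ v := by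
  by_cases hl : u.length ≤ v.length
  · exact h.determ hv List.prefix_rfl u hu huv hl
  · have h1 := h.determ hu huv v hv List.prefix_rfl (by omega)
    obtain ⟨w, rfl⟩ := h1
    have hw : w ≠ [] := by
      rintro rfl
      simp at hl
    obtain ⟨w', a', rfl⟩ : ∃ w' a', w = w' ++ [a'] :=
      ⟨w.dropLast, w.getLast hw, (List.dropLast_append_getLast hw).symm⟩
    have hs : a' :: v <:+ w' ++ [a'] ++ v := ⟨w', by simp⟩
    have h2 := (((h.pre a' v).trans (h.suffix hs).2).trans huv).length_le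
    simp at h2

end IsFusion

end Pool.Agent.H65Z.HC
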