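import Pool.Agent.H65Z.HC.Kernel

set_option autoImplicit false

namespace Pool.Agent.H65Z.HC

open MeasureTheory Set Filter Topology
open scoped ENNReal

variable {Ω : Type} [MeasurableSpace Ω] {μ : Measure Ω}

/-- The part of the fusion tree that avoids `g` from `k` on. -/
def avoid (cl : Hs → Cell μ) (val : Hs → ℕ) (g : ℕ → Ω → ℕ) (k : ℕ) : Hs → Set Ω
  | [] => (cl []).x.p
  | a :: v => (cl (a :: v)).x.p ∩ ({_ω | k ≤ v.length} ∩ {ω | g v.length ω = val (a :: v)})ᶜ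

theorem avoid_sub (cl : Hs → Cell μ) (val : Hs → ℕ) (g : ℕ → Ω → ℕ) (k : ℕ) :
    ∀ u, avoid cl val g k u ⊆ (cl u).x.p
  | [] => Subset.rfl
  | _ :: _ => inter_subset_left

theorem avoid_meas (cl : Hs → Cell μ) (val : Hs → ℕ) (g : ℕ → Ω → ℕ) (k : ℕ)
    (hg : ∀ n j, MeasurableSet {ω | g n ω = j}) : ∀ u, MeasurableSet (avoid cl val g k u)
  | [] => (cl []).x.mp
  | a :: v => (cl (a :: v)).x.mp.inter ((MeasurableSet.const _).inter (hg _ _)).compl

theorem positive [IsProbabilityMeasure μ] {r0 : Cd μ} {Dec : ℕ → ℕ → Cd μ → Prop}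
    {cl : Hs → Cell μ} {val : Hs → ℕ} (hF : IsFusion r0 Dec cl val) (g : ℕ → Ω → ℕ) (k : ℕ)
    (hk : ∑' n, (2⁻¹ : ℝ≥0∞) ^ (n + k) < μ (cl []).x.p)
    (hind : ∀ h u n j, μ (canon (fun u => (cl u).x.p) h u ∩ {ω | g n ω = j}) ≤
      μ (canon (fun u => (cl u).x.p) h u) * 2⁻¹ ^ n)
    {B : Set Ω} (hB : Kill μ (avoid cl val g k) [] B) : μ Bᶜ ≠ 0 := by
  obtain ⟨h, hh⟩ := hB
  set C := canon (fun u => (cl u).x.p) h with hC
  have hCm : ∀ u, MeasurableSet (C u) := canon_meas _ h fun u => (cl u).x.mp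
  let E : ℕ → Set Ω := fun n =>
    ⋃ u : {u : Hs // u.length = n + 1}, C u.1 ∩ {ω | g n ω = val u.1}
  have hE : ∀ n, μ (E n) ≤ 2⁻¹ ^ n := by
    intro n
    calc μ (E n) ≤ ∑' u : {u : Hs // u.length = n + 1}, μ (C u.1 ∩ {ω | g n ω = val u.1}) :=
          measure_iUnion_le _
      _ ≤ ∑' u : {u : Hs // u.length = n + 1}, μ (C u.1) * 2⁻¹ ^ n :=
          ENNReal.tsum_le_tsum fun u => hind h u.1 n _
      _ = μ (⋃ u : {u : Hs // u.length = n + 1}, C u.1) * 2⁻¹ ^ n := by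
          rw [ENNReal.tsum_mul_right, 
            measure_iUnion (f := fun u : {u : Hs // u.length = n + 1} => C u.1) _
              (fun u => hCm u.1)]
          intro u v huv
          exact Set.disjoint_left.2 fun ω hu hv =>
            huv (Subtype.ext (canon_uniq _ h ω u.1 v.1 (u.2.trans v.2.symm) hu hv))
      _ ≤ 1 * 2⁻¹ ^ n := by gcongr; exact prob_le_one
      _ = 2⁻¹ ^ n := one_mul _
  have hE' : μ (⋃ n, E (n + k)) < μ (cl []).x.p :=
    lt_of_le_of_lt ((measure_iUnion_le _).trans (ENNReal.tsum_le_tsum fun n => hE _)) hk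
  have hstep : ∀ᵐ ω ∂μ, ∀ u, ω ∈ C u → ∃ a, ω ∈ C (a :: u) := by
    refine ae_all_iff.2 fun u => ?_
    filter_upwards [(cl u).x.cond.2 (h u), ae_all_iff.2 fun t => hF.cov t u] with ω h1 h2 h3
    have h4 : ω ∈ (cl u).x.p := canon_sub _ h u h3
    obtain ⟨t, σ', h5, h6, h7⟩ := h1 h4 _ ((cl u).inr h4)
    obtain ⟨i, hi⟩ := h2 t h4 σ' h6 h7
    exact canon_step _ h ω u h3 ⟨(t, i), h5, hi⟩
  intro h0
  have hsub : ∀ᵐ ω ∂μ, ω ∈ (cl []).x.p → ω ∈ ⋃ n, E (n + k) := by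
    filter_upwards [hh, hstep, measure_eq_zero_iff_ae_notMem.1 h0] with ω h1 h2 h3 h4
    by_contra h5
    choose nx hnx using h2
    let U : ℕ → {u : Hs // ω ∈ C u} := fun i =>
      Nat.rec (motive := fun _ => {u : Hs // ω ∈ C u}) ⟨[], h4⟩
        (fun _ u => ⟨nx u.1 u.2 :: u.1, hnx u.1 u.2⟩) i
    let b : ℕ → W × ℕ := fun i => nx (U i).1 (U i).2
    have hb : ∀ i, hist b i = (U i).1 := by
      intro i
      induction i with
      | zero => rfl
      | succ i ih => rw [hist, ih]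
    have hbC : ∀ i, ω ∈ C (hist b i) := fun i => by rw [hb]; exact (U i).2
    refine h1 (not_not.1 h3) b ⟨rfl, fun i => ?_, fun N => ⟨N, le_rfl, (hbC (N + 1)).1.2.1⟩⟩
    cases i with
    | zero => exact h4
    | succ i =>
      refine ⟨canon_sub _ h _ (hbC (i + 1)), fun h6 => h5 ?_⟩
      have h7 : k ≤ i := by simpa using h6.1
      refine mem_iUnion.2 ⟨i - k, ?_⟩
      rw [Nat.sub_add_cancel h7]
      refine mem_iUnion.2 ⟨⟨hist b (i + 1), by simp⟩, hbC (i + 1), ?_⟩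
      have h8 := h6.2
      simp only [hist_length, mem_ofPred_eq] at h8
      exact h8
  exact absurd (measure_mono_ae hsub) (not_le.2 hE')

theorem core [IsProbabilityMeasure μ] (hμ : Fresh μ) {r0 : Cd μ} (h0 : μ r0.p ≠ 0)
    {Dec : ℕ → ℕ → Cd μ → Prop} (hD : IsDec r0 Dec) :
    ∃ (z : Cd μ) (g : ℕ → Ω → ℕ) (k : ℕ), z.Le r0 ∧ μ z.p ≠ 0 ∧
      (∀ n j, MeasurableSet {ω | g n ω = j}) ∧
      ∀ (w : Cd μ) n m, w.Le z → μ w.p ≠ 0 → k ≤ n → (∀ᵐ ω ∂μ, ω ∈ w.p → g n ω = m) →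
        ¬ Dec n m w := by
  obtain ⟨cl, val, hF⟩ := exists_fusion h0 hD
  obtain ⟨g, hg, hfr⟩ := hμ Hs (fun u => (cl u).x.p) (fun u => (cl u).x.mp)
  have hind : ∀ h u n j, μ (canon (fun u => (cl u).x.p) h u ∩ {ω | g n ω = j}) ≤
      μ (canon (fun u => (cl u).x.p) h u) * 2⁻¹ ^ n := by
    obtain ⟨m, hm, hm'⟩ := hfr
    exact fun h u n j => hm' n j _ (@canon_meas Ω m _ h hm u)
  obtain ⟨k, hk⟩ : ∃ k, ∑' n, (2⁻¹ : ℝ≥0∞) ^ (n + k) < μ (cl []).x.p := by
    have := ENNReal.tendsto_sum_nat_add (fun n => (2⁻¹ : ℝ≥0∞) ^ n) (by simp)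
    exact (this.eventually (gt_mem_nhds (pos_iff_ne_zero.2 hF.pos))).exists
  obtain ⟨Bad, Sp, hSpm, hBad, h1, h2, h3⟩ :=
    exists_kernel (μ := μ) (avoid cl val g k) (avoid_meas cl val g k hg)
  have hpos := positive hF g k hk hind (hBad [])
  obtain ⟨u0, hu0⟩ := pick hpos Sp (by
    filter_upwards [h1] with ω h4 h5
    obtain ⟨u', _, h6⟩ := h4 [] h5
    exact ⟨u', h6⟩)
  let Sq : Hs → Set Ω := fun u => Sp u ∩ (cl u).x.p
  have hSq : ∀ᵐ ω ∂μ, ∀ u, ω ∈ Sp u → ω ∈ Sq u := by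
    filter_upwards [h3] with ω h4 u hu
    exact ⟨hu, avoid_sub cl val g k u (h4 u hu u List.suffix_rfl)⟩
  let S : Nd → Set Ω := fun σ => ⋃ u, {_ω | (cl u).σ = σ} ∩ Sq u
  have hSqm : ∀ u, MeasurableSet (Sq u) := fun u => (hSpm u).inter (cl u).x.mp
  let z : Cd μ :=
    { p := Sq u0
      S := S
      mp := hSqm u0
      mS := fun σ => MeasurableSet.iUnion fun u => (MeasurableSet.const _).inter (hSqm u)
      cond := by
        refine ⟨Eventually.of_forall fun ω hω => ⟨_, mem_iUnion.2 ⟨u0, rfl, hω⟩⟩, fun F => ?_⟩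
        filter_upwards [h1, h2 F, hSq] with ω h4 h5 h6 _ σ hσ
        obtain ⟨u, hu, hu'⟩ := mem_iUnion.1 hσ
        obtain ⟨t, i, h7, h8⟩ := h5 u hu'.1
        obtain ⟨u', h9, h10⟩ := h4 _ h8
        refine ⟨t, (cl u').σ, h7, ?_, mem_iUnion.2 ⟨u', rfl, h6 u' h10⟩⟩
        rw [← (show (cl u).σ = σ from hu)]
        exact (hF.pre (t, i) u).trans (hF.suffix h9).2 }
  refine ⟨z, g, k, ⟨fun ω hω => (hF.le_top u0).1 hω.2, ?_⟩, ?_, hg, ?_⟩
  · filter_upwards [ae_all_iff.2 fun u => (hF.le_top u).2] with ω h4 _ σ hσ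
    obtain ⟨u, hu, hu'⟩ := mem_iUnion.1 hσ
    rw [← (show (cl u).σ = σ from hu)]
    exact h4 u hu'.2 _ ((cl u).inr hu'.2)
  · intro hz
    apply hu0
    rw [measure_eq_zero_iff_ae_notMem] at hz ⊢
    filter_upwards [hz, hSq] with ω h4 h5 h6
    exact h4 (h5 u0 h6.2)
  · intro w n m hwz hw hkn hgm hdec
    have hpick : ∀ (σ : Nd) (q : Set Ω), μ (w.p ∩ w.S σ ∩ q) ≠ 0 →
        ∃ u, (cl u).σ = σ ∧ μ (w.p ∩ w.S σ ∩ q ∩ Sq u) ≠ 0 := by
      intro σ q hq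
      obtain ⟨u, hu⟩ := pick hq (fun u => {_ω | (cl u).σ = σ} ∩ Sq u) (by
        filter_upwards [hwz.2] with ω h4 h5
        exact mem_iUnion.1 (h4 h5.1.1 σ h5.1.2))
      obtain ⟨ω, hω⟩ := nonempty_of_measure_ne_zero hu
      refine ⟨u, hω.2.1, fun h => hu (measure_mono_null (fun ω hω => ?_) h)⟩
      exact ⟨hω.1, hω.2.2⟩
    have hlong : ∀ j, ∃ u : Hs, j ≤ u.length ∧ μ (w.p ∩ w.S (cl u).σ ∩ Sq u) ≠ 0 := by
      intro j
      induction j with
      | zero =>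
        obtain ⟨σ, _, hσ⟩ := w.long hw 0
        obtain ⟨u, rfl, hu⟩ := hpick σ univ (by simpa using hσ)
        exact ⟨u, Nat.zero_le _, by simpa using hu⟩
      | succ j ih =>
        obtain ⟨u, hj, hu⟩ := ih
        obtain ⟨t, σ', _, h5, h6⟩ := w.step ∅ hu
        obtain ⟨u', rfl, hu'⟩ := hpick σ' _ h6
        obtain ⟨ω, hω⟩ := nonempty_of_measure_ne_zero hu'
        have h7 : u <:+ u' := hF.determ' hω.1.2.2 hω.2.2 ((List.prefix_append _ _).trans h5)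
        have h8 : u.length < u'.length := by
          refine lt_of_le_of_ne h7.length_le fun h => ?_
          have := h7.eq_of_length h
          subst this
          have := h5.length_le
          simp at this
        refine ⟨u', by omega, fun h => hu' (measure_mono_null (fun ω hω => ?_) h)⟩
        exact ⟨hω.1.1, hω.2⟩
    obtain ⟨u, hu, hpos'⟩ := hlong (n + 1)
    obtain ⟨a, v, hv, hav⟩ : ∃ (a : W × ℕ) (v : Hs), v.length = n ∧ a :: v <:+ u := by
      have hs : u.drop (u.length - (n + 1)) <:+ u := List.drop_suffix _ _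
      have hl : (u.drop (u.length - (n + 1))).length = n + 1 := by simp; omega
      obtain ⟨a, v, hav⟩ := List.exists_cons_of_length_eq_add_one hl
      rw [hav] at hs hl
      exact ⟨a, v, by simpa using hl, hs⟩
    let w' : Cd μ := (w.cell (cl u).σ).x.restrict (Sq u) (hSqm u)
    have hw'p : w'.p = w.p ∩ w.S (cl u).σ ∩ Sq u := by
      show (w.cell (cl u).σ).x.p ∩ Sq u = _
      rw [Cd.cell_p]
    have hw'pos : μ w'.p ≠ 0 := by rw [hw'p]; exact hpos'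
    have hw'w : w'.Le w := (Cd.restrict_le _ _ (hSqm u)).trans (w.cell_le _)
    have hw'v : w'.Le (cl (a :: v)).x := by
      refine ⟨fun ω hω => (hF.suffix hav).1.1 hω.2.2, ?_⟩
      have hall : ∀ u', ∀ᵐ ω ∂μ, a :: v <:+ u' → ω ∈ (cl u').x.p →
          ω ∈ (cl (a :: v)).x.S (cl u').σ := by
        intro u'
        by_cases hu' : a :: v <:+ u'
        · filter_upwards [(hF.suffix hu').1.2] with ω h4 _ h5
          exact h4 h5 _ ((cl u').inr h5)
        · exact Eventually.of_forall fun _ h => absurd h hu'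
      filter_upwards [ae_all_iff.2 hall, hwz.2] with ω h4 h5 hω σ hσ
      obtain ⟨u', hu', hu''⟩ := mem_iUnion.1 (h5 (hw'w.1 hω) σ hσ.1)
      have hσ' : (cl u').σ = σ := hu'
      subst hσ'
      exact h4 u' (hav.trans (hF.determ' hω.2.2 hu''.2 hσ.2)) hu''.2
    have hvpos : μ (cl (a :: v)).x.p ≠ 0 := fun h => hw'pos (measure_mono_null hw'v.1 h)
    have hd1 : Dec n (val (a :: v)) w' := hD.mono _ _ _ _ hw'v hw'pos (hv ▸ hF.dec a v hvpos)
    have hd2 : Dec n m w' := hD.mono _ _ _ _ hw'w hw'pos hdec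
    have hmv : m = val (a :: v) := hD.uniq n _ _ w' (hw'v.trans (hF.le_top _)) hw'pos hd2 hd1
    obtain ⟨ω, hω, h4, h5⟩ := exists_of_ae hw'pos (h3.and hgm)
    have h6 := h4 u hω.2.1 _ hav
    exact h6.2 ⟨by rw [mem_ofPred_eq, hv]; exact hkn,
      by rw [mem_ofPred_eq, hv, ← hmv]; exact h5 (hw'w.1 hω)⟩

end Pool.Agent.H65Z.HC
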