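import Mathlib

/-!
A sentence of the forcing language of an ordered set `P` of conditions is represented by the set
of the conditions which force it. A name for a subset of a ground model set `X` is a map
`X → Set P` sending `x` to the set of the conditions attached to `x`; its value in the extension
by the generic filter `G` is the set of the `x` whose attached set meets `G`.
-/

set_option autoImplicit false

namespace Pool.Agent.H65Z.HC

section Language

variable {P : Type} [LE P]

/-- `p` forces `not φ` iff no `q ≤ p` forces `φ`. -/
def fnot (φ : Set P) : Set P := {p | ∀ q ≤ p, q ∉ φ}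

/-- `p` forces `φ and ψ` iff it forces both. -/
def fand (φ ψ : Set P) : Set P := {p | p ∈ φ ∧ p ∈ ψ}

/-- `p` forces `for all i, φ i` iff it forces every `φ i`. -/
def fall {ι : Type} (φ : ι → Set P) : Set P := {p | ∀ i, p ∈ φ i}

/-- `φ implies ψ` is `not (φ and not ψ)`. -/
def fimp (φ ψ : Set P) : Set P := fnot (fand φ (fnot ψ))

/-- `there is i with φ i` is `not for all i, not φ i`. -/
def fex {ι : Type} (φ : ι → Set P) : Set P := fnot (fall fun i => fnot (φ i))

/-- A statement about ground model objects that is decided in the ground model. -/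
def fground (h : Prop) : Set P := {_p | h}

/-- `p` forces that the generic filter meets the set `N` of conditions. -/
def meets (N : Set P) : Set P := {p | ∀ q ≤ p, ∃ r ≤ q, ∃ s ∈ N, r ≤ s}

/-- The subset of `ℕ × ℕ` named by `c` is a function from `ℕ` to `ℕ`. -/
def IsFun (c : ℕ → ℕ → Set P) : Set P :=
  fand (fall fun n => fex fun m => meets (c n m))
    (fall fun n => fall fun m => fall fun m' =>
      fimp (fand (meets (c n m)) (meets (c n m'))) (fground (m = m')))

end Language

/-- The extension by `P` contains a half-Cohen real over the ground model: a function `c` from `ℕ`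
to `ℕ` which agrees infinitely often with every ground model function `f`. -/
def AddsHalfCohen (P : Type) [LE P] : Set P :=
  fex fun c : ℕ → ℕ → Set P => fand (IsFun c)
    (fall fun f : ℕ → ℕ => fall fun k : ℕ => fex fun n : ℕ =>
      fand (fground (k ≤ n)) (meets (c n (f n))))

/-- A `P`-name for a structure `(Q, ≤)`: `mem` names the subset `Q` of the ground model set `D`,
and `le` names a subset of `D × D`. -/
structure ForcingName (P : Type) where
  D : Type
  mem : D → Set P
  le : D → D → Set P

namespace ForcingName

variable {P : Type} [LE P] (Q : ForcingName P)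

/-- The sentence `d ∈ Q`. -/
def Mem (d : Q.D) : Set P := meets (Q.mem d)

/-- The sentence `d ≤ e`. -/
def Le (d e : Q.D) : Set P := meets (Q.le d e)

/-- The sentence: `Q` is nonempty and partially ordered by `≤`. -/
def IsForcing : Set P :=
  fand (fex fun d => Q.Mem d)
    (fand (fall fun d => fimp (Q.Mem d) (Q.Le d d))
      (fand (fall fun d => fall fun e => fall fun f =>
          fimp (fand (fand (Q.Mem d) (fand (Q.Mem e) (Q.Mem f))) (fand (Q.Le d e) (Q.Le e f)))
            (Q.Le d f))
        (fall fun d => fall fun e =>
          fimp (fand (fand (Q.Mem d) (Q.Mem e)) (fand (Q.Le d e) (Q.Le e d))) (fground (d = e)))))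

/-- The two-step iteration `P * Q`: pairs `(p, d)` such that `p` forces `d ∈ Q`. -/
structure Iter where
  p : P
  d : Q.D
  forces : p ∈ Q.Mem d

/-- `(p, d) ≤ (q, e)` iff `p ≤ q` and `p` forces `d ≤ e`. -/
instance iterLE : LE Q.Iter := ⟨fun x y => x.p ≤ y.p ∧ x.p ∈ Q.Le x.d y.d⟩

/-!
The forcing language of `Q` inside the extension by `P`. A sentence `φ` of it is represented by
the map sending `d` to the `P`-sentence `d forces φ`. The clauses are those of the section above,
written as `P`-sentences.
-/

/-- `d` forces `not φ` iff no `e ≤ d` in `Q` forces `φ`. -/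
def gnot (Φ : Q.D → Set P) : Q.D → Set P := fun d =>
  fall fun e => fimp (fand (Q.Mem e) (Q.Le e d)) (fnot (Φ e))

/-- `d` forces `φ and ψ` iff it forces both. -/
def gand (Φ Ψ : Q.D → Set P) : Q.D → Set P := fun d => fand (Φ d) (Ψ d)

/-- `d` forces `for all i, φ i` iff it forces every `φ i`. -/
def gall {ι : Type} (Φ : ι → Q.D → Set P) : Q.D → Set P := fun d => fall fun i => Φ i d

/-- `φ implies ψ` is `not (φ and not ψ)`. -/
def gimp (Φ Ψ : Q.D → Set P) : Q.D → Set P := Q.gnot (Q.gand Φ (Q.gnot Ψ))

/-- `there is i with φ i` is `not for all i, not φ i`. -/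
def gex {ι : Type} (Φ : ι → Q.D → Set P) : Q.D → Set P :=
  Q.gnot (Q.gall fun i => Q.gnot (Φ i))

/-- A statement about objects of the extension by `P` that is decided in that extension. -/
def gground (φ : Set P) : Q.D → Set P := fun _ => φ

/-- `d` forces that the `Q`-generic filter meets the set of conditions named by `N`. -/
def gmeets (N : Q.D → Set P) : Q.D → Set P := fun d =>
  fall fun e => fimp (fand (Q.Mem e) (Q.Le e d))
    (fex fun r => fand (fand (Q.Mem r) (Q.Le r e))
      (fex fun s => fand (fand (Q.Mem s) (meets (N s))) (Q.Le r s)))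

/-- The subset of `ℕ × ℕ` named by the `Q`-name that `c` names is a function from `ℕ` to `ℕ`. -/
def gIsFun (c : ℕ → ℕ → Q.D → Set P) : Q.D → Set P :=
  Q.gand (Q.gall fun n => Q.gex fun m => Q.gmeets (c n m))
    (Q.gall fun n => Q.gall fun m => Q.gall fun m' =>
      Q.gimp (Q.gand (Q.gmeets (c n m)) (Q.gmeets (c n m'))) (Q.gground (fground (m = m'))))

/-- The extension by `Q` contains a half-Cohen real over the extension by `P`: a function `c`
which agrees infinitely often with every function `f` of the extension by `P`. -/
def gAddsHalfCohen : Q.D → Set P :=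
  Q.gex fun c : ℕ → ℕ → Q.D → Set P => Q.gand (Q.gIsFun c)
    (Q.gall fun f : ℕ → ℕ → Set P => Q.gimp (Q.gground (IsFun f))
      (Q.gall fun k : ℕ => Q.gex fun n : ℕ => Q.gand (Q.gground (fground (k ≤ n)))
        (Q.gex fun m : ℕ => Q.gand (Q.gground (meets (f n m))) (Q.gmeets (c n m)))))

/-- The `P`-sentence: `Q` adds no half-Cohen real over the extension by `P`, that is, every
condition of `Q` forces that there is none. -/
def AddsNoHalfCohen : Set P :=
  fall fun d => fimp (Q.Mem d) (Q.gnot Q.gAddsHalfCohen d)

end ForcingName

end Pool.Agent.H65Z.HC
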