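import Pool.Agent.H65Z.HC.Cond

set_option autoImplicit false

namespace Pool.Agent.H65Z.HC

open MeasureTheory Set Filter Topology
open scoped ENNReal

variable {Ω : Type} [MeasurableSpace Ω] {μ : Measure Ω}

def hist (b : ℕ → W × ℕ) : ℕ → Hs
  | 0 => []
  | i + 1 => b i :: hist b i

@[simp] theorem hist_length (b : ℕ → W × ℕ) (i : ℕ) : (hist b i).length = i := by
  induction i with
  | zero => rfl
  | succ i ih => simp [hist, ih]

theorem hist_suffix (b : ℕ → W × ℕ) {i j : ℕ} (h : i ≤ j) : hist b i <:+ hist b j := by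
  induction h with
  | refl => exact List.suffix_rfl
  | step _ ih => exact ih.trans (List.suffix_cons _ _)

theorem eq_hist_of_suffix (b : ℕ → W × ℕ) {v : Hs} {j : ℕ} (h : v <:+ hist b j) :
    hist b v.length = v := by
  have h1 : v.length ≤ j := by simpa using h.length_le
  have h2 := List.suffix_of_suffix_length_le h (hist_suffix b h1) (by simp)
  exact (h2.eq_of_length (by simp)).symm

/-- The branch `b` goes through `u`, stays in the tree `K` and defeats `h`. -/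
def Phi (K : Hs → Set Ω) (u : Hs) (h : Hs → Finset (ℕ → ℕ)) (b : ℕ → W × ℕ) (ω : Ω) : Prop :=
  hist b u.length = u ∧ (∀ i, ω ∈ K (hist b i)) ∧ ∀ N, ∃ i, N ≤ i ∧ Matches (b i).1 (h (hist b i))

def Kill (μ : Measure Ω) (K : Hs → Set Ω) (u : Hs) (A : Set Ω) : Prop :=
  ∃ h, ∀ᵐ ω ∂μ, ω ∈ A → ∀ b, ¬ Phi K u h b ω

theorem exists_dom {ι : Type} [Countable ι] [Nonempty ι] (h : ι → Hs → Finset (ℕ → ℕ)) :
    ∃ h0 : Hs → Finset (ℕ → ℕ), ∀ j, ∃ N, ∀ u : Hs, N ≤ u.length → h j u ⊆ h0 u := by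
  classical
  obtain ⟨e, he⟩ := exists_surjective_nat ι
  refine ⟨fun u => (Finset.range (u.length + 1)).biUnion fun n => h (e n) u, fun j => ?_⟩
  obtain ⟨n, rfl⟩ := he j
  exact ⟨n, fun u hu => Finset.subset_biUnion_of_mem (fun n => h (e n) u)
    (Finset.mem_range.2 (by omega))⟩

omit [MeasurableSpace Ω] in
theorem Phi.dom {K : Hs → Set Ω} {u : Hs} {h h' : Hs → Finset (ℕ → ℕ)} {b : ℕ → W × ℕ} {ω : Ω}
    (hΦ : Phi K u h b ω) (hd : ∃ N, ∀ u : Hs, N ≤ u.length → h' u ⊆ h u) : Phi K u h' b ω := by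
  obtain ⟨N, hN⟩ := hd
  refine ⟨hΦ.1, hΦ.2.1, fun M => ?_⟩
  obtain ⟨i, hi, hm⟩ := hΦ.2.2 (max M N)
  exact ⟨i, le_of_max_le_left hi, hm.mono (hN _ (by simpa using le_of_max_le_right hi))⟩

theorem exists_bad [IsFiniteMeasure μ] (K : Hs → Set Ω) (u : Hs) :
    ∃ B : Set Ω, MeasurableSet B ∧ Kill μ K u B ∧
      ∀ A, MeasurableSet A → Kill μ K u A → ∀ᵐ ω ∂μ, ω ∈ A → ω ∈ B := by
  let ι := {A : Set Ω // MeasurableSet A ∧ Kill μ K u A}
  have : Nonempty ι :=
    ⟨⟨∅, MeasurableSet.empty, fun _ => ∅, Eventually.of_forall fun _ h => absurd h (by simp)⟩⟩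
  obtain ⟨e, he⟩ := exhaust (μ := μ) (fun a : ι => a.1) (fun a => a.2.1)
  refine ⟨⋃ n, (e n).1, MeasurableSet.iUnion fun n => (e n).2.1, ?_, fun A hA hK => ?_⟩
  · choose h hh using fun n => (e n).2.2
    obtain ⟨h0, hh0⟩ := exists_dom h
    refine ⟨h0, ?_⟩
    filter_upwards [ae_all_iff.2 hh] with ω h1 h2 b hb
    obtain ⟨n, hn⟩ := mem_iUnion.1 h2
    exact h1 n hn b (hb.dom (hh0 n))
  · filter_upwards [he ⟨A, hA, hK⟩] with ω h1 h2
    exact mem_iUnion.2 (h1 h2)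

/-- The kernel: the set of the nodes that split in the positive part of the tree `K`. -/
theorem exists_kernel [IsFiniteMeasure μ] (K : Hs → Set Ω) (hK : ∀ u, MeasurableSet (K u)) :
    ∃ Bad Sp : Hs → Set Ω, (∀ u, MeasurableSet (Sp u)) ∧ (∀ u, Kill μ K u (Bad u)) ∧
      (∀ᵐ ω ∂μ, ∀ u, ω ∉ Bad u → ∃ u', u <:+ u' ∧ ω ∈ Sp u') ∧
      (∀ F, ∀ᵐ ω ∂μ, ∀ u, ω ∈ Sp u → ∃ t i, Matches t F ∧ ω ∉ Bad ((t, i) :: u)) ∧
      (∀ᵐ ω ∂μ, ∀ u, ω ∈ Sp u → ∀ v, v <:+ u → ω ∈ K v) := by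
  classical
  choose Bad hBm hBk hBmax using exists_bad (μ := μ) K
  let AF : Hs → Finset (ℕ → ℕ) → Set Ω := fun u F =>
    ⋂ a : W × ℕ, {_ω | Matches a.1 F}ᶜ ∪ Bad (a :: u)
  have hAF : ∀ u F ω, ω ∈ AF u F ↔ ∀ a : W × ℕ, Matches a.1 F → ω ∈ Bad (a :: u) := by
    intro u F ω
    simp only [AF, mem_iInter, mem_union, mem_compl_iff, mem_ofPred_eq]
    exact forall_congr' fun a => by tauto
  have hAFm : ∀ u F, MeasurableSet (AF u F) := fun u F =>
    MeasurableSet.iInter fun a => (MeasurableSet.const _).compl.union (hBm _)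
  choose e he using fun u => exhaust (μ := μ) (AF u) (hAFm u)
  let NS : Hs → Set Ω := fun u => ⋃ n, AF u (e u n)
  have hNSm : ∀ u, MeasurableSet (NS u) := fun u => MeasurableSet.iUnion fun n => hAFm _ _
  have happ : ∀ u (ε : ℝ≥0∞), 0 < ε → ∃ F, μ (NS u \ AF u F) < ε := by
    intro u ε hε
    let G : ℕ → Finset (ℕ → ℕ) := fun J => (Finset.range (J + 1)).biUnion (e u)
    have hmono : ∀ {F F' : Finset (ℕ → ℕ)}, F ⊆ F' → AF u F ⊆ AF u F' := fun hF ω hω =>
      (hAF _ _ _).2 fun a ha => (hAF _ _ _).1 hω a (ha.mono hF)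
    have hanti : Antitone fun J => NS u \ AF u (G J) := by
      intro J J' hJ ω hω
      refine ⟨hω.1, fun h => hω.2 (hmono ?_ h)⟩
      exact Finset.biUnion_subset_biUnion_of_subset_left _
        (Finset.range_subset_range.2 (by omega))
    have hlim := tendsto_measure_iInter_atTop (μ := μ)
      (fun J => ((hNSm u).diff (hAFm u (G J))).nullMeasurableSet) hanti
      ⟨0, measure_ne_top μ _⟩
    have hempty : (⋂ J, NS u \ AF u (G J)) = ∅ := by
      ext ω
      simp only [mem_iInter, mem_empty_iff_false, iff_false]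
      intro h
      obtain ⟨n, hn⟩ := mem_iUnion.1 (h 0).1
      exact (h n).2 (hmono (Finset.subset_biUnion_of_mem (e u)
        (Finset.mem_range.2 (Nat.lt_succ_self n))) hn)
    rw [hempty, measure_empty] at hlim
    obtain ⟨J, hJ⟩ := (hlim.eventually (gt_mem_nhds hε)).exists
    exact ⟨G J, hJ⟩
  obtain ⟨ε, hε0, hε1⟩ := ENNReal.exists_pos_sum_of_countable (ε := 1) one_ne_zero Hs
  choose F hF using fun u => happ u (ε u) (by exact_mod_cast hε0 u)
  have hBC : ∀ᵐ ω ∂μ, {u | ω ∈ NS u \ AF u (F u)}.Finite := by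
    refine ae_finite_setOfPred_mem (ne_top_of_le_ne_top (hε1.trans ENNReal.one_lt_top).ne ?_)
    exact ENNReal.tsum_le_tsum fun u => (hF u).le
  choose hb hhb using hBk
  refine ⟨Bad, fun u => (Bad u)ᶜ ∩ (NS u)ᶜ, fun u => (hBm u).compl.inter (hNSm u).compl,
    fun u => ⟨hb u, hhb u⟩, ?_, fun F => ?_, ?_⟩
  · refine ae_all_iff.2 fun u => ?_
    let A : Set Ω := ⋂ u', {_ω | u <:+ u'}ᶜ ∪ (Bad u' ∪ NS u')
    have hA : ∀ ω, ω ∈ A ↔ ∀ u', u <:+ u' → ω ∈ Bad u' ∨ ω ∈ NS u' := by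
      intro ω
      simp only [A, mem_iInter, mem_union, mem_compl_iff, mem_ofPred_eq]
      exact forall_congr' fun a => by tauto
    have hAm : MeasurableSet A :=
      MeasurableSet.iInter fun a => (MeasurableSet.const _).compl.union ((hBm _).union (hNSm _))
    have hkill : Kill μ K u A := by
      obtain ⟨h0, hh0⟩ := exists_dom hb
      refine ⟨fun v => h0 v ∪ F v, ?_⟩
      filter_upwards [hBC, ae_all_iff.2 hhb] with ω h1 h2 h3 b hΦ
      have hnb : ∀ i, ω ∉ Bad (hist b i) := by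
        intro i hi
        refine h2 _ hi b (Phi.dom (h := fun v => h0 v ∪ F v) ⟨by simp, hΦ.2⟩ ?_)
        obtain ⟨N, hN⟩ := hh0 (hist b i)
        exact ⟨N, fun v hv => (hN v hv).trans Finset.subset_union_left⟩
      obtain ⟨N, hN⟩ := (h1.image List.length).bddAbove
      obtain ⟨i, hi, hm⟩ := hΦ.2.2 (max (N + 1) u.length)
      have h4 : u <:+ hist b i := by
        have := hist_suffix b (le_of_max_le_right hi)
        rwa [hΦ.1] at this
      have h5 : ω ∈ NS (hist b i) := ((hA ω).1 h3 _ h4).resolve_left (hnb i)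
      have h6 : ω ∈ AF (hist b i) (F (hist b i)) := by
        by_contra h6
        have := hN ⟨hist b i, ⟨h5, h6⟩, rfl⟩
        have h7 := le_of_max_le_left hi
        simp at this
        omega
      exact hnb (i + 1) ((hAF _ _ _).1 h6 (b i) (hm.mono Finset.subset_union_right))
    filter_upwards [hBmax u A hAm hkill] with ω h1 h2
    by_contra h3
    refine h2 (h1 ((hA ω).2 fun u' hu' => ?_))
    by_contra h4
    push Not at h4
    exact h3 ⟨u', hu', h4⟩
  · refine ae_all_iff.2 fun u => ?_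
    filter_upwards [he u F] with ω h1 h2
    by_contra h3
    push Not at h3
    exact h2.2 (mem_iUnion.2 (h1 ((hAF _ _ _).2 fun a ha => h3 a.1 a.2 ha)))
  · refine ae_all_iff.2 fun u => ?_
    have : ∀ v, ∀ᵐ ω ∂μ, ω ∉ Bad u → v <:+ u → ω ∈ K v := by
      intro v
      by_cases hv : v <:+ u
      · have hkill : Kill μ K u (K v)ᶜ := by
          refine ⟨fun _ => ∅, Eventually.of_forall fun ω hω b hΦ => hω ?_⟩
          have := hΦ.2.1 v.length
          rwa [eq_hist_of_suffix b (j := u.length) (by rw [hΦ.1]; exact hv)] at this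
        filter_upwards [hBmax u _ (hK v).compl hkill] with ω h1 h2 _
        by_contra h3
        exact h2 (h1 h3)
      · exact Eventually.of_forall fun _ _ h => absurd h hv
    filter_upwards [ae_all_iff.2 this] with ω h1 h2 v hv
    exact h1 v h2.1 hv

/-- The cells of the first branch that defeats `h`. -/
def canon (p : Hs → Set Ω) (h : Hs → Finset (ℕ → ℕ)) : Hs → Set Ω
  | [] => p []
  | a :: u => canon p h u ∩ ({_ω | Matches a.1 (h u)} ∩ p (a :: u)) ∩
      ⋂ a' : W × ℕ, ({_ω | Encodable.encode a' < Encodable.encode a ∧ Matches a'.1 (h u)} ∩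
        p (a' :: u))ᶜ

theorem canon_meas (p : Hs → Set Ω) (h : Hs → Finset (ℕ → ℕ)) (hp : ∀ u, MeasurableSet (p u)) :
    ∀ u, MeasurableSet (canon p h u)
  | [] => hp []
  | a :: u => ((canon_meas p h hp u).inter ((MeasurableSet.const _).inter (hp (a :: u)))).inter
      (MeasurableSet.iInter fun _ => ((MeasurableSet.const _).inter (hp _)).compl)

omit [MeasurableSpace Ω] in
theorem canon_sub (p : Hs → Set Ω) (h : Hs → Finset (ℕ → ℕ)) : ∀ u, canon p h u ⊆ p u
  | [] => Subset.rfl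
  | _ :: _ => fun _ hω => hω.1.2.2

omit [MeasurableSpace Ω] in
theorem canon_uniq (p : Hs → Set Ω) (h : Hs → Finset (ℕ → ℕ)) (ω : Ω) :
    ∀ u v : Hs, u.length = v.length → ω ∈ canon p h u → ω ∈ canon p h v → u = v
  | [], [], _, _, _ => rfl
  | [], _ :: _, hl, _, _ => by simp at hl
  | _ :: _, [], hl, _, _ => by simp at hl
  | a :: u, a' :: v, hl, hu, hv => by
    have huv : u = v := canon_uniq p h ω u v (by simpa using hl) hu.1.1 hv.1.1
    subst huv
    have h1 := mem_iInter.1 hu.2 a'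
    have h2 := mem_iInter.1 hv.2 a
    have h3 : ¬ Encodable.encode a' < Encodable.encode a := fun h => h1 ⟨⟨h, hv.1.2.1⟩, hv.1.2.2⟩
    have h4 : ¬ Encodable.encode a < Encodable.encode a' := fun h => h2 ⟨⟨h, hu.1.2.1⟩, hu.1.2.2⟩
    have : a = a' := Encodable.encode_injective (by omega)
    rw [this]

omit [MeasurableSpace Ω] in
theorem canon_step (p : Hs → Set Ω) (h : Hs → Finset (ℕ → ℕ)) (ω : Ω) (u : Hs)
    (hu : ω ∈ canon p h u) (hex : ∃ a : W × ℕ, Matches a.1 (h u) ∧ ω ∈ p (a :: u)) :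
    ∃ a, ω ∈ canon p h (a :: u) := by
  obtain ⟨a, ha, hmin⟩ := (measure (fun a : W × ℕ => Encodable.encode a)).wf.has_min
    {a : W × ℕ | Matches a.1 (h u) ∧ ω ∈ p (a :: u)} hex
  exact ⟨a, ⟨hu, ha⟩, mem_iInter.2 fun a' ha' => hmin a' ⟨ha'.1.2, ha'.2⟩ ha'.1.1⟩

end Pool.Agent.H65Z.HC
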