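import Pool.Agent.H65Z.HC.Defs

set_option autoImplicit false

namespace Pool.Agent.H65Z.HC

section
variable {P : Type} [LE P]

theorem mem_fimp {φ ψ : Set P} {p : P} :
    p ∈ fimp φ ψ ↔ ∀ q ≤ p, q ∈ φ → ∃ r ≤ q, r ∈ ψ := by
  simp only [fimp, fnot, fand, Set.mem_ofPred_eq, not_and, not_forall, not_not, exists_prop]

theorem mem_fex {ι : Type} {φ : ι → Set P} {p : P} :
    p ∈ fex φ ↔ ∀ q ≤ p, ∃ i, ∃ r ≤ q, r ∈ φ i := by
  simp only [fex, fnot, fall, Set.mem_ofPred_eq, not_forall, not_not, exists_prop]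

end

variable {P : Type} [Preorder P]

def Mono (φ : Set P) : Prop := ∀ p q, q ≤ p → p ∈ φ → q ∈ φ

theorem mono_fnot (φ : Set P) : Mono (fnot φ) := fun _ _ h hp r hr => hp r (hr.trans h)

theorem mono_meets (N : Set P) : Mono (meets N) := fun _ _ h hp r hr => hp r (hr.trans h)

theorem Mono.fand {φ ψ : Set P} (h1 : Mono φ) (h2 : Mono ψ) : Mono (fand φ ψ) :=
  fun p q h hp => ⟨h1 p q h hp.1, h2 p q h hp.2⟩

theorem mono_fall {ι : Type} {φ : ι → Set P} (h1 : ∀ i, Mono (φ i)) : Mono (fall φ) :=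
  fun p q h hp i => h1 i p q h (hp i)

theorem mono_fground (h : Prop) : Mono (fground h : Set P) := fun _ _ _ hp => hp

theorem mono_isFun (c : ℕ → ℕ → Set P) : Mono (IsFun c) :=
  (mono_fall fun _ => mono_fnot _).fand
    (mono_fall fun _ => mono_fall fun _ => mono_fall fun _ => mono_fnot _)

namespace ForcingName

variable (Q : ForcingName P)

def tr (Φ : Q.D → Set P) : Set Q.Iter := {x | x.p ∈ Φ x.d}

def MonoG (Φ : Q.D → Set P) : Prop := ∀ d, Mono (Φ d)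

theorem le_def (x y : Q.Iter) : x ≤ y ↔ x.p ≤ y.p ∧ x.p ∈ Q.Le x.d y.d := Iff.rfl

theorem monoG_gnot (Φ : Q.D → Set P) : Q.MonoG (Q.gnot Φ) :=
  fun _ => mono_fall fun _ => mono_fnot _

theorem monoG_gmeets (N : Q.D → Set P) : Q.MonoG (Q.gmeets N) :=
  fun _ => mono_fall fun _ => mono_fnot _

theorem monoG_gand {Φ Ψ : Q.D → Set P} (h1 : Q.MonoG Φ) (h2 : Q.MonoG Ψ) :
    Q.MonoG (Q.gand Φ Ψ) := fun d => (h1 d).fand (h2 d)

theorem monoG_gall {ι : Type} {Φ : ι → Q.D → Set P} (h1 : ∀ i, Q.MonoG (Φ i)) :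
    Q.MonoG (Q.gall Φ) := fun d => mono_fall fun i => h1 i d

theorem monoG_gimp (Φ Ψ : Q.D → Set P) : Q.MonoG (Q.gimp Φ Ψ) := Q.monoG_gnot _

theorem monoG_gex {ι : Type} (Φ : ι → Q.D → Set P) : Q.MonoG (Q.gex Φ) := Q.monoG_gnot _

theorem monoG_gground {φ : Set P} (h : Mono φ) : Q.MonoG (Q.gground φ) := fun _ => h

theorem tr_gnot {Φ : Q.D → Set P} (h : Q.MonoG Φ) : Q.tr (Q.gnot Φ) = fnot (Q.tr Φ) := by
  ext x
  constructor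
  · intro hx y hy hyΦ
    obtain ⟨r, hr, hr'⟩ := mem_fimp.1 (hx y.d) y.p hy.1 ⟨y.forces, hy.2⟩
    exact hr' r le_rfl (h _ _ _ hr hyΦ)
  · intro hx e
    refine mem_fimp.2 fun q hq hqe => ⟨q, le_rfl, fun s hs hsΦ => ?_⟩
    exact hx ⟨s, e, mono_meets _ _ _ hs hqe.1⟩ ⟨hs.trans hq, mono_meets _ _ _ hs hqe.2⟩ hsΦ

theorem tr_gand (Φ Ψ : Q.D → Set P) : Q.tr (Q.gand Φ Ψ) = fand (Q.tr Φ) (Q.tr Ψ) := rfl

theorem tr_gall {ι : Type} (Φ : ι → Q.D → Set P) :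
    Q.tr (Q.gall Φ) = fall fun i => Q.tr (Φ i) := rfl

theorem tr_gimp {Φ Ψ : Q.D → Set P} (h1 : Q.MonoG Φ) (h2 : Q.MonoG Ψ) :
    Q.tr (Q.gimp Φ Ψ) = fimp (Q.tr Φ) (Q.tr Ψ) := by
  rw [gimp, Q.tr_gnot (Q.monoG_gand h1 (Q.monoG_gnot _)), tr_gand, Q.tr_gnot h2, fimp]

theorem tr_gex {ι : Type} {Φ : ι → Q.D → Set P} (h : ∀ i, Q.MonoG (Φ i)) :
    Q.tr (Q.gex Φ) = fex fun i => Q.tr (Φ i) := by
  rw [gex, Q.tr_gnot (Q.monoG_gall fun _ => Q.monoG_gnot _), tr_gall, fex]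
  simp only [Q.tr_gnot (h _)]

theorem tr_gmeets (N : Q.D → Set P) :
    Q.tr (Q.gmeets N) = meets (Q.tr fun d => meets (N d)) := by
  ext x
  constructor
  · intro hx y hy
    obtain ⟨q1, hq1, h1⟩ := mem_fimp.1 (hx y.d) y.p hy.1 ⟨y.forces, hy.2⟩
    obtain ⟨r, q2, hq2, h2⟩ := mem_fex.1 h1 q1 le_rfl
    obtain ⟨s, q3, hq3, h3⟩ := mem_fex.1 h2.2 q2 le_rfl
    exact ⟨⟨q3, r, mono_meets _ _ _ hq3 h2.1.1⟩,
      ⟨hq3.trans (hq2.trans hq1), mono_meets _ _ _ hq3 h2.1.2⟩, ⟨q3, s, h3.1.1⟩, h3.1.2,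
      le_rfl, h3.2⟩
  · intro hx e
    refine mem_fimp.2 fun q hq hqe => ⟨q, le_rfl, mem_fex.2 fun q1 hq1 => ?_⟩
    obtain ⟨r, hr, s, hs, hrs⟩ := hx ⟨q1, e, mono_meets _ _ _ hq1 hqe.1⟩
      ⟨hq1.trans hq, mono_meets _ _ _ hq1 hqe.2⟩
    refine ⟨r.d, r.p, hr.1, ⟨r.forces, hr.2⟩, mem_fex.2 fun q2 hq2 => ⟨s.d, q2, le_rfl, ?_⟩⟩
    exact ⟨⟨mono_meets _ _ _ (hq2.trans hrs.1) s.forces, mono_meets _ _ _ (hq2.trans hrs.1) hs⟩,
      mono_meets _ _ _ hq2 hrs.2⟩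

theorem monoG_gIsFun (c : ℕ → ℕ → Q.D → Set P) : Q.MonoG (Q.gIsFun c) :=
  Q.monoG_gand (Q.monoG_gall fun _ => Q.monoG_gnot _)
    (Q.monoG_gall fun _ => Q.monoG_gall fun _ => Q.monoG_gall fun _ => Q.monoG_gnot _)

theorem tr_gIsFun (c : ℕ → ℕ → Q.D → Set P) :
    Q.tr (Q.gIsFun c) = IsFun fun n m => Q.tr fun d => meets (c n m d) := by
  rw [gIsFun, tr_gand, tr_gall, tr_gall, IsFun]
  congr 1
  · congr 1
    funext n
    rw [Q.tr_gex fun _ => Q.monoG_gmeets _]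
    simp only [tr_gmeets]
  · congr 1
    funext n
    rw [tr_gall]
    congr 1
    funext m
    rw [tr_gall]
    congr 1
    funext m'
    rw [Q.tr_gimp (Q.monoG_gand (Q.monoG_gmeets _) (Q.monoG_gmeets _))
      (Q.monoG_gground (mono_fground _)), tr_gand, tr_gmeets, tr_gmeets]
    rfl

/-- A sufficient condition for `Q` being forced to add no half-Cohen real. -/
theorem addsNo_of (hrefl : ∀ x : Q.Iter, x ≤ x)
    (htrans : ∀ x y z : Q.Iter, x ≤ y → y ≤ z → x ≤ z)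
    (h : ∀ (τ : ℕ → ℕ → Set Q.Iter) (y : Q.Iter), y ∈ IsFun τ →
      ∃ (z : Q.Iter) (f : ℕ → ℕ → Set P) (k : ℕ), z ≤ y ∧ z.p ∈ IsFun f ∧
        ∀ w ≤ z, ∀ n m, k ≤ n → w.p ∈ meets (f n m) → w ∉ meets (τ n m)) (p : P) :
    p ∈ Q.AddsNoHalfCohen := by
  intro d
  refine mem_fimp.2 fun q _ hq => ⟨q, le_rfl, ?_⟩
  have hm : Q.MonoG Q.gAddsHalfCohen := Q.monoG_gnot _
  have : (⟨q, d, hq⟩ : Q.Iter) ∈ Q.tr (Q.gnot Q.gAddsHalfCohen) := by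
    rw [Q.tr_gnot hm]
    intro y _ hy
    rw [gAddsHalfCohen, Q.tr_gex fun c => Q.monoG_gand (Q.monoG_gIsFun c)
      (Q.monoG_gall fun _ => Q.monoG_gimp _ _)] at hy
    obtain ⟨c, y1, _, hy1⟩ := mem_fex.1 hy y (hrefl y)
    rw [tr_gand, tr_gIsFun, tr_gall] at hy1
    obtain ⟨z, f, k, hz, hf, hw⟩ := h _ y1 hy1.1
    have h2 := hy1.2 f
    simp only at h2
    rw [Q.tr_gimp (Q.monoG_gground (mono_isFun f)) (Q.monoG_gall fun _ => Q.monoG_gex _),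
      tr_gall] at h2
    obtain ⟨r, hr, h3⟩ := mem_fimp.1 h2 z hz hf
    have h4 := h3 k
    simp only at h4
    rw [Q.tr_gex fun _ => Q.monoG_gand (Q.monoG_gground (mono_fground _)) (Q.monoG_gex _)] at h4
    obtain ⟨n, r2, hr2, h5⟩ := mem_fex.1 h4 r (hrefl r)
    rw [tr_gand, Q.tr_gex fun _ => Q.monoG_gand (Q.monoG_gground (mono_meets _))
      (Q.monoG_gmeets _)] at h5
    obtain ⟨m, r3, hr3, h6⟩ := mem_fex.1 h5.2 r2 (hrefl r2)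
    rw [tr_gand, tr_gmeets] at h6
    exact hw r3 (htrans _ _ _ hr3 (htrans _ _ _ hr2 hr)) n m h5.1 h6.1 h6.2
  exact this

end ForcingName

end Pool.Agent.H65Z.HC
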