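import Pool.Agent.H65Z.HC.Core
import Pool.Agent.H65Z.HC.Trans

set_option autoImplicit false

namespace Pool.Agent.H65Z.HC

open MeasureTheory Set Filter Topology
open scoped ENNReal

variable {Ω : Type} [MeasurableSpace Ω] {μ : Measure Ω}

/-- Random forcing: measurable sets of positive measure. -/
abbrev Pos (μ : Measure Ω) : Type := {A : Set Ω // MeasurableSet A ∧ μ A ≠ 0}

theorem ae_of_dense {p : Pos μ} {A : Set Ω} (hA : MeasurableSet A)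
    (h : ∀ q ≤ p, ∃ r ≤ q, ∀ᵐ ω ∂μ, ω ∈ r.1 → ω ∈ A) : ∀ᵐ ω ∂μ, ω ∈ p.1 → ω ∈ A := by
  have : μ (p.1 \ A) = 0 := by
    by_contra h0
    obtain ⟨r, hr, h1⟩ := h ⟨p.1 \ A, p.2.1.diff hA, h0⟩ (fun _ h => h.1)
    obtain ⟨ω, h2, h3⟩ := exists_of_ae r.2.2 h1
    exact (hr h2).2 (h3 h2)
  filter_upwards [measure_eq_zero_iff_ae_notMem.1 this] with ω h1 h2
  by_contra h3
  exact h1 ⟨h2, h3⟩

theorem self_mem_meets {P : Type} [LE P] (hrefl : ∀ x : P, x ≤ x)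
    (htrans : ∀ x y z : P, x ≤ y → y ≤ z → x ≤ z) {N : Set P} {x y : P} (hxy : x ≤ y)
    (h : y ∈ N) : x ∈ meets N := fun q hq => ⟨q, hrefl q, y, h, htrans _ _ _ hq hxy⟩

/-- The name of the second forcing. -/
@[reducible] def QQ (μ : Measure Ω) : ForcingName (Pos μ) where
  D := {S : Nd → Set Ω // ∀ σ, MeasurableSet (S σ)} × ℕ
  mem := fun d => {p | IsCond μ p.1 d.1.1}
  le := fun d e => {p | d = e ∨ (IsLe μ p.1 d.1.1 e.1.1 ∧ e.2 < d.2)}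

theorem mem_iff (p : Pos μ) (d : (QQ μ).D) : p ∈ (QQ μ).Mem d ↔ IsCond μ p.1 d.1.1 := by
  constructor
  · intro h
    constructor
    · have := ae_of_dense (p := p) (MeasurableSet.iUnion d.1.2) (fun q hq => by
        obtain ⟨r, hr, s, hs, hrs⟩ := h q hq
        refine ⟨r, hr, ?_⟩
        filter_upwards [hs.1] with ω h1 h2
        exact mem_iUnion.2 (h1 (hrs h2)))
      filter_upwards [this] with ω h1 h2
      exact mem_iUnion.1 (h1 h2)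
    · intro F
      have hm : MeasurableSet {ω | ∀ σ, ω ∈ d.1.1 σ →
          ∃ t σ', Matches t F ∧ σ ++ [t] <+: σ' ∧ ω ∈ d.1.1 σ'} := by
        have : {ω | ∀ σ, ω ∈ d.1.1 σ → ∃ t σ', Matches t F ∧ σ ++ [t] <+: σ' ∧ ω ∈ d.1.1 σ'} =
            ⋂ σ, (d.1.1 σ)ᶜ ∪ ⋃ t, ⋃ σ', {_ω | Matches t F ∧ σ ++ [t] <+: σ'} ∩ d.1.1 σ' := by
          ext ω
          simp only [mem_ofPred_eq, mem_iInter, mem_union, mem_compl_iff, mem_iUnion, mem_inter_iff,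
            and_assoc]
          exact forall_congr' fun σ => by tauto
        rw [this]
        exact MeasurableSet.iInter fun σ => (d.1.2 σ).compl.union (MeasurableSet.iUnion fun t =>
          MeasurableSet.iUnion fun σ' => (MeasurableSet.const _).inter (d.1.2 σ'))
      exact ae_of_dense (p := p) hm (fun q hq => by
        obtain ⟨r, hr, s, hs, hrs⟩ := h q hq
        refine ⟨r, hr, ?_⟩
        filter_upwards [hs.2 F] with ω h1 h2
        exact h1 (hrs h2))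
  · exact fun h => self_mem_meets le_refl (fun _ _ _ => le_trans) le_rfl h

theorem le_iff (p : Pos μ) (d e : (QQ μ).D) :
    p ∈ (QQ μ).Le d e ↔ d = e ∨ (IsLe μ p.1 d.1.1 e.1.1 ∧ e.2 < d.2) := by
  constructor
  · intro h
    by_cases hde : d = e
    · exact Or.inl hde
    · refine Or.inr ⟨?_, ?_⟩
      · have hm : MeasurableSet {ω | ∀ σ, ω ∈ d.1.1 σ → ω ∈ e.1.1 σ} := by
          have : {ω | ∀ σ, ω ∈ d.1.1 σ → ω ∈ e.1.1 σ} = ⋂ σ, (d.1.1 σ)ᶜ ∪ e.1.1 σ := by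
            ext ω
            simp only [mem_ofPred_eq, mem_iInter, mem_union, mem_compl_iff]
            exact forall_congr' fun σ => by tauto
          rw [this]
          exact MeasurableSet.iInter fun σ => (d.1.2 σ).compl.union (e.1.2 σ)
        exact ae_of_dense (p := p) hm (fun q hq => by
          obtain ⟨r, hr, s, hs, hrs⟩ := h q hq
          exact ⟨r, hr, IsLe.mono (hs.resolve_left hde).1 hrs⟩)
      · obtain ⟨r, _, s, hs, _⟩ := h p le_rfl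
        exact (hs.resolve_left hde).2
  · exact fun h => self_mem_meets le_refl (fun _ _ _ => le_trans) le_rfl h

def cd (x : (QQ μ).Iter) : Cd μ := ⟨x.p.1, x.d.1.1, x.p.2.1, x.d.1.2, (mem_iff _ _).1 x.forces⟩

def mk (x : Cd μ) (hx : μ x.p ≠ 0) (N : ℕ) : (QQ μ).Iter :=
  ⟨⟨x.p, x.mp, hx⟩, (⟨x.S, x.mS⟩, N), (mem_iff _ _).2 x.cond⟩

theorem cd_mk (x : Cd μ) (hx : μ x.p ≠ 0) (N : ℕ) : cd (mk x hx N) = x := rfl

theorem cd_le {x y : (QQ μ).Iter} (h : x ≤ y) : (cd x).Le (cd y) := by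
  refine ⟨h.1, ?_⟩
  rcases (le_iff _ _ _).1 h.2 with h1 | h1
  · refine Eventually.of_forall fun ω _ σ hσ => ?_
    show ω ∈ y.d.1.1 σ
    rw [← h1]; exact hσ
  · exact h1.1

theorem le_of_cd {x y : (QQ μ).Iter} (h : (cd x).Le (cd y)) (hN : y.d.2 < x.d.2) : x ≤ y :=
  ⟨h.1, (le_iff _ _ _).2 (Or.inr ⟨h.2, hN⟩)⟩

theorem iter_refl (x : (QQ μ).Iter) : x ≤ x := ⟨le_rfl, (le_iff _ _ _).2 (Or.inl rfl)⟩

theorem iter_trans (x y z : (QQ μ).Iter) (h1 : x ≤ y) (h2 : y ≤ z) : x ≤ z := by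
  rcases (le_iff _ _ _).1 h1.2 with h3 | h3
  · refine ⟨h1.1.trans h2.1, ?_⟩
    rw [h3]
    exact mono_meets _ _ _ h1.1 h2.2
  · rcases (le_iff _ _ _).1 h2.2 with h4 | h4
    · refine ⟨h1.1.trans h2.1, ?_⟩
      rw [← h4]
      exact h1.2
    · exact le_of_cd ((cd_le h1).trans (cd_le h2)) (h4.2.trans h3.2)

theorem mk_le {x : Cd μ} (hx : μ x.p ≠ 0) {y : (QQ μ).Iter} (h : x.Le (cd y)) :
    mk x hx (y.d.2 + 1) ≤ y := le_of_cd h (Nat.lt_succ_self _)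

theorem meets_of_cd {N : Set (QQ μ).Iter} {x y : (QQ μ).Iter} (h : (cd y).Le (cd x))
    (hx : x ∈ meets N) : y ∈ meets N := by
  intro q hq
  obtain ⟨r, hr, h1⟩ := hx (mk (cd q) q.p.2.2 (max q.d.2 x.d.2 + 1))
    (le_of_cd ((cd_le hq).trans h) (Nat.lt_succ_of_le (le_max_right _ _)))
  exact ⟨r, iter_trans _ _ _ hr (le_of_cd (Cd.le_refl _) (Nat.lt_succ_of_le (le_max_left _ _))),
    h1⟩

theorem exists_matches (F : Finset (ℕ → ℕ)) : ∃ t, Matches t F := by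
  refine ⟨List.ofFn fun i : Fin F.toList.length => F.toList[i] i, fun f hf => ?_⟩
  obtain ⟨i, hi, rfl⟩ := List.getElem_of_mem (Finset.mem_toList.2 hf)
  exact ⟨i, by simpa [List.getElem?_ofFn] using hi⟩

theorem isForcing (p : Pos μ) : p ∈ (QQ μ).IsForcing := by
  refine ⟨mem_fex.2 fun q _ => ⟨(⟨fun _ => univ, fun _ => MeasurableSet.univ⟩, 0), q, le_rfl,
    (mem_iff _ _).2 ⟨Eventually.of_forall fun _ _ => ⟨[], mem_univ _⟩, fun F => ?_⟩⟩,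
    fun d => ?_, fun d e f => ?_, fun d e => ?_⟩
  · obtain ⟨t, ht⟩ := exists_matches F
    exact Eventually.of_forall fun _ _ σ _ => ⟨t, σ ++ [t], ht, List.prefix_rfl, mem_univ _⟩
  · exact mem_fimp.2 fun q _ _ => ⟨q, le_rfl, (le_iff _ _ _).2 (Or.inl rfl)⟩
  · refine mem_fimp.2 fun q _ h => ⟨q, le_rfl, ?_⟩
    exact (iter_trans ⟨q, d, h.1.1⟩ ⟨q, e, h.1.2.1⟩ ⟨q, f, h.1.2.2⟩ ⟨le_rfl, h.2.1⟩
      ⟨le_rfl, h.2.2⟩).2
  · refine mem_fimp.2 fun q _ h => ⟨q, le_rfl, ?_⟩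
    rcases (le_iff _ _ _).1 h.2.1 with h1 | h1
    · exact h1
    · rcases (le_iff _ _ _).1 h.2.2 with h2 | h2
      · exact h2.symm
      · exact absurd (h1.2.trans h2.2) (lt_irrefl _)

theorem random_no [IsProbabilityMeasure μ] (p : Pos μ) : p ∈ fnot (AddsHalfCohen (Pos μ)) := by
  intro q _ hq
  obtain ⟨c, r, _, hfun, hhc⟩ := mem_fex.1 hq q le_rfl
  have key : ∀ n m, ∃ A : Set Ω, MeasurableSet A ∧
      (∀ s ≤ r, s ∈ meets (c n m) → ∀ᵐ ω ∂μ, ω ∈ s.1 → ω ∈ A) ∧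
      ∀ B, MeasurableSet B → μ (A ∩ B) ≠ 0 → ∃ s ≤ r, s ∈ meets (c n m) ∧ s.1 ⊆ B := by
    intro n m
    let G : Option {s : Pos μ // s ≤ r ∧ s ∈ meets (c n m)} → Set Ω :=
      fun o => o.elim ∅ fun s => s.1.1
    have hG : ∀ o, MeasurableSet (G o) := fun o => by
      cases o with
      | none => exact MeasurableSet.empty
      | some s => exact s.1.2.1
    obtain ⟨e, he⟩ := exhaust (μ := μ) G hG
    refine ⟨⋃ i, G (e i), MeasurableSet.iUnion fun i => hG _, fun s h1 h2 => ?_, fun B hB h => ?_⟩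
    · filter_upwards [he (some ⟨s, h1, h2⟩)] with ω h3 h4
      exact mem_iUnion.2 (h3 h4)
    · obtain ⟨i, hi⟩ := pick h (fun i => G (e i))
        (Eventually.of_forall fun ω hω => mem_iUnion.1 hω.1)
      cases hei : e i with
      | none => simp [hei, G] at hi
      | some s =>
        rw [hei] at hi
        have hpos : μ (s.1.1 ∩ B) ≠ 0 := fun h0 => hi (measure_mono_null (fun ω hω => by
          exact ⟨hω.2, hω.1.2⟩) h0)
        have hle : (⟨s.1.1 ∩ B, s.1.2.1.inter hB, hpos⟩ : Pos μ) ≤ s.1 := fun _ h => h.1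
        exact ⟨_, hle.trans s.2.1, mono_meets _ _ _ hle s.2.2, inter_subset_right⟩
  choose A hAm hA1 hA2 using key
  have hdis : ∀ n, Pairwise (Function.onFun (AEDisjoint μ) (A n)) := by
    intro n m m' hmm
    by_contra h
    obtain ⟨s, hs, hs1, hs2⟩ := hA2 n m (A n m') (hAm _ _) h
    obtain ⟨s', hs', hs1', hs2'⟩ := hA2 n m' s.1 s.2.1
      (fun h0 => s.2.2 (measure_mono_null (fun ω hω => by exact ⟨hs2 hω, hω⟩) h0))
    obtain ⟨_, _, h3⟩ := mem_fimp.1 (hfun.2 n m m') s' hs' ⟨mono_meets _ _ _ hs2' hs1, hs1'⟩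
    exact hmm h3
  obtain ⟨ε, hε0, hε1⟩ := ENNReal.exists_pos_sum_of_countable r.2.2 ℕ
  have hsmall : ∀ n, ∃ m, μ (A n m) < ε n := by
    intro n
    have h1 : ∑' m, μ (A n m) ≠ ∞ := by
      rw [← measure_iUnion₀ (hdis n) fun m => (hAm n m).nullMeasurableSet]
      exact measure_ne_top μ _
    exact ((ENNReal.tendsto_atTop_zero_of_tsum_ne_top h1).eventually
      (gt_mem_nhds (by exact_mod_cast hε0 n))).exists
  choose f hf using hsmall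
  have hpos : μ (r.1 \ ⋃ n, A n (f n)) ≠ 0 := by
    intro h0
    have h1 : μ r.1 ≤ μ (⋃ n, A n (f n)) := by
      refine measure_mono_ae ?_
      filter_upwards [measure_eq_zero_iff_ae_notMem.1 h0] with ω h2 h3
      by_contra h4
      exact h2 ⟨h3, h4⟩
    have h2 := h1.trans ((measure_iUnion_le _).trans (ENNReal.tsum_le_tsum fun n => (hf n).le))
    exact absurd hε1 (not_lt.2 h2)
  have hle : (⟨_, r.2.1.diff (MeasurableSet.iUnion fun n => hAm n (f n)), hpos⟩ : Pos μ) ≤ r :=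
    fun _ h => h.1
  obtain ⟨n, s, hs, h3⟩ := mem_fex.1 (hhc f 0) _ hle
  obtain ⟨ω, h4, h5⟩ := exists_of_ae s.2.2 (hA1 n (f n) s (hs.trans hle) h3.2)
  exact (hs h4).2 (mem_iUnion.2 ⟨n, h5 h4⟩)

theorem second_no [IsProbabilityMeasure μ] (hμ : Fresh μ) (p : Pos μ) :
    p ∈ (QQ μ).AddsNoHalfCohen := by
  refine (QQ μ).addsNo_of iter_refl iter_trans (fun τ y hy => ?_) p
  let Dec : ℕ → ℕ → Cd μ → Prop := fun n m x => ∀ w : (QQ μ).Iter, (cd w).Le x → w ∈ meets (τ n m)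
  have hD : IsDec (cd y) Dec := by
    refine ⟨fun n m x x' h _ hd w hw => hd w (hw.trans h), fun n x hx hpos => ?_,
      fun n m m' x hx hpos h1 h2 => ?_⟩
    · obtain ⟨m, r, hr, h1⟩ := mem_fex.1 (hy.1 n) _ (mk_le hpos hx)
      exact ⟨cd r, m, cd_le hr, r.p.2.2, fun w hw => meets_of_cd hw h1⟩
    · obtain ⟨_, _, h3⟩ := mem_fimp.1 (hy.2 n m m') _ (mk_le hpos hx)
        ⟨h1 _ (Cd.le_refl _), h2 _ (Cd.le_refl _)⟩
      exact h3
  obtain ⟨z, g, k, hz, hzpos, hg, hw⟩ := core hμ (r0 := cd y) y.p.2.2 hD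
  let f : ℕ → ℕ → Set (Pos μ) := fun n m => {s | ∀ᵐ ω ∂μ, ω ∈ s.1 → g n ω = m}
  have hf : ∀ n m (s : Pos μ), s ∈ meets (f n m) → ∀ᵐ ω ∂μ, ω ∈ s.1 → g n ω = m := by
    intro n m s hs
    refine ae_of_dense (hg n m) fun q hq => ?_
    obtain ⟨r, hr, s', hs', hrs⟩ := hs q hq
    exact ⟨r, hr, Filter.Eventually.mono hs' fun ω h1 h2 => h1 (hrs h2)⟩
  refine ⟨mk z hzpos (y.d.2 + 1), f, k, mk_le hzpos hz, ⟨fun n => ?_, fun n m m' => ?_⟩,
    fun w hwz n m hkn h1 h2 => ?_⟩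
  · refine mem_fex.2 fun q _ => ?_
    obtain ⟨m, hm⟩ := pick q.2.2 (fun m => {ω | g n ω = m})
      (Eventually.of_forall fun ω _ => ⟨g n ω, rfl⟩)
    refine ⟨m, ⟨_, q.2.1.inter (hg n m), hm⟩, fun _ h => h.1,
      self_mem_meets le_refl (fun _ _ _ => le_trans) le_rfl ?_⟩
    show ∀ᵐ ω ∂μ, ω ∈ q.1 ∩ {ω | g n ω = m} → g n ω = m
    exact Eventually.of_forall fun _ h => h.2
  · refine mem_fimp.2 fun q _ h => ⟨q, le_rfl, ?_⟩
    obtain ⟨ω, h1, h2, h3⟩ := exists_of_ae q.2.2 ((hf _ _ _ h.1).and (hf _ _ _ h.2))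
    exact (h2 h1).symm.trans (h3 h1)
  · exact hw (cd w) n m (cd_le hwz) w.p.2.2 hkn (hf n m _ h1) fun w' hw' => meets_of_cd hw' h2

theorem iter_adds (r : (QQ μ).Iter) : r ∈ AddsHalfCohen (QQ μ).Iter := by
  let c : ℕ → ℕ → Set (QQ μ).Iter := fun n m => {x | ∀ᵐ ω ∂μ, ω ∈ (cd x).p → ∀ σ,
    ω ∈ (cd x).S σ → ∃ t, σ[n.unpair.1]? = some t ∧ t.getD n.unpair.2 0 = m}
  have hc : ∀ n m x, x ∈ c n m ↔ ∀ᵐ ω ∂μ, ω ∈ (cd x).p → ∀ σ, ω ∈ (cd x).S σ →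
      ∃ t, σ[n.unpair.1]? = some t ∧ t.getD n.unpair.2 0 = m := fun _ _ _ => Iff.rfl
  have key : ∀ (x : (QQ μ).Iter) (σ : Nd), μ ((cd x).p ∩ (cd x).S σ) ≠ 0 → ∀ n t,
      σ[n.unpair.1]? = some t → ∃ y ≤ x, y ∈ meets (c n (t.getD n.unpair.2 0)) := by
    intro x σ h n t ht
    have hpos : μ ((cd x).cell σ).x.p ≠ 0 := by rw [Cd.cell_p]; exact h
    refine ⟨_, mk_le hpos ((cd x).cell_le σ),
      self_mem_meets iter_refl iter_trans (iter_refl _) ?_⟩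
    refine (hc _ _ _).2 (Eventually.of_forall fun ω _ σ' hσ' => ⟨t, ?_, rfl⟩)
    obtain ⟨l, rfl⟩ := ((cd x).cell σ).root σ' ω hσ'
    obtain ⟨hl, _⟩ := List.getElem?_eq_some_iff.1 ht
    exact (List.getElem?_append_left hl).trans ht
  refine mem_fex.2 fun q _ => ⟨c, q, iter_refl q, ⟨fun n => ?_, fun n m m' => ?_⟩, fun f k => ?_⟩
  · refine mem_fex.2 fun x _ => ?_
    obtain ⟨σ, h1, h2⟩ := (cd x).long x.p.2.2 (n.unpair.1 + 1)
    exact ⟨_, key x σ h2 n σ[n.unpair.1] (List.getElem?_eq_getElem (by omega))⟩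
  · refine mem_fimp.2 fun x _ h => ⟨x, iter_refl x, ?_⟩
    obtain ⟨r1, hr1, s, hs, hrs⟩ := h.1 x (iter_refl x)
    obtain ⟨r2, hr2, s', hs', hrs'⟩ := h.2 r1 hr1
    have h1 := cd_le (iter_trans _ _ _ hr2 hrs)
    have h2 := cd_le hrs'
    obtain ⟨ω, hω, ⟨⟨h3, h4⟩, h5, h6⟩, h7⟩ := exists_of_ae (p := (cd r2).p) r2.p.2.2
      (((((hc _ _ _).1 hs).and ((hc _ _ _).1 hs')).and (h1.2.and h2.2)).and (cd r2).cond.1)
    obtain ⟨σ, hσ⟩ := h7 hω
    obtain ⟨t, ht, rfl⟩ := h3 (h1.1 hω) σ (h5 hω σ hσ)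
    obtain ⟨t', ht', rfl⟩ := h4 (h2.1 hω) σ (h6 hω σ hσ)
    rw [ht] at ht'
    cases ht'
    rfl
  · refine mem_fex.2 fun x _ => ?_
    obtain ⟨σ, h1, h2⟩ := (cd x).long x.p.2.2 k
    obtain ⟨t, σ', h3, h4, h5⟩ := (cd x).step {fun j => f (Nat.pair σ.length j)} (σ := σ)
      (q := univ) (by simpa using h2)
    obtain ⟨j, hj⟩ := h3 _ (Finset.mem_singleton_self _)
    obtain ⟨y, hy, h6⟩ := key x σ' (by simpa using h5) (Nat.pair σ.length j) t (by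
      obtain ⟨l, rfl⟩ := h4
      simp)
    refine ⟨Nat.pair σ.length j, y, hy, h1.trans (Nat.left_le_pair _ _), ?_⟩
    simpa [List.getD_eq_getElem?_getD, hj] using h6

theorem main : ∃ (P : Type) (_ : PartialOrder P) (_ : Nonempty P) (Q : ForcingName P),
    (∀ p : P, p ∈ Q.IsForcing) ∧ (∀ p : P, p ∈ fnot (AddsHalfCohen P)) ∧
      (∀ p : P, p ∈ Q.AddsNoHalfCohen) ∧ Nonempty Q.Iter ∧
      ∀ r : Q.Iter, r ∈ AddsHalfCohen Q.Iter := by
  have hne : Nonempty (Pos mu) := ⟨⟨univ, MeasurableSet.univ, by simp⟩⟩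
  refine ⟨Pos mu, inferInstance, hne, QQ mu, isForcing, random_no, second_no fresh_mu, ?_,
    iter_adds⟩
  obtain ⟨p⟩ := hne
  obtain ⟨d, q, _, h⟩ := mem_fex.1 (isForcing p).1 p le_rfl
  exact ⟨⟨q, d, h⟩⟩

end Pool.Agent.H65Z.HC
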