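import Mathlib

set_option autoImplicit false

namespace Pool.Agent.H65Z.HC

open MeasureTheory Set ProbabilityTheory Filter
open scoped ENNReal

section General

variable {Ω : Type} [MeasurableSpace Ω] {μ : Measure Ω}

/-- Exhaustion: a family of measurable sets has a countable subfamily with the same essential
union. -/
theorem exhaust [IsFiniteMeasure μ] {ι : Type} [Nonempty ι] (A : ι → Set Ω)
    (hA : ∀ i, MeasurableSet (A i)) :
    ∃ e : ℕ → ι, ∀ i, ∀ᵐ ω ∂μ, ω ∈ A i → ∃ n, ω ∈ A (e n) := by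
  classical
  set U : (ℕ → ι) → Set Ω := fun e => ⋃ n, A (e n) with hU
  have hUm : ∀ e, MeasurableSet (U e) := fun e => MeasurableSet.iUnion fun n => hA _
  set s : ℝ≥0∞ := ⨆ e, μ (U e) with hs
  have hsfin : s ≠ ∞ := by
    refine ne_top_of_le_ne_top (measure_ne_top μ univ) ?_
    exact iSup_le fun e => measure_mono (subset_univ _)
  have key : ∀ k : ℕ, ∃ e, s ≤ μ (U e) + ((k : ℝ≥0∞) + 1)⁻¹ := by
    intro k
    by_contra hcon
    push Not at hcon
    by_cases h0 : s = 0
    · have := hcon (fun _ => Classical.arbitrary ι)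
      rw [h0] at this
      exact absurd this (by simp)
    · have hpos : ((k : ℝ≥0∞) + 1)⁻¹ ≠ 0 := by simp
      have : s ≤ s - ((k : ℝ≥0∞) + 1)⁻¹ := by
        refine iSup_le fun e => ?_
        exact ENNReal.le_sub_of_add_le_right (by simp) (hcon e).le
      exact absurd (ENNReal.sub_lt_self hsfin h0 hpos) (not_lt.2 this)
  choose f hf using key
  refine ⟨fun n => f n.unpair.1 n.unpair.2, fun i => ?_⟩
  set e : ℕ → ι := fun n => f n.unpair.1 n.unpair.2 with he
  have hsub : ∀ k, U (f k) ⊆ U e := by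
    intro k ω hω
    obtain ⟨n, hn⟩ := mem_iUnion.1 hω
    exact mem_iUnion.2 ⟨Nat.pair k n, by simpa [he] using hn⟩
  have hge : s ≤ μ (U e) := by
    refine ENNReal.le_of_forall_pos_le_add fun ε hε _ => ?_
    obtain ⟨k, hk⟩ := ENNReal.exists_inv_nat_lt (a := (ε : ℝ≥0∞)) (by exact_mod_cast hε.ne')
    refine (hf k).trans (add_le_add (measure_mono (hsub k)) ?_)
    exact le_trans (ENNReal.inv_le_inv.2 le_self_add) hk.le
  set e' : ℕ → ι := fun n => if n = 0 then i else e (n - 1) with he'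
  have h1 : U e ∪ A i ⊆ U e' := by
    rintro ω (hω | hω)
    · obtain ⟨n, hn⟩ := mem_iUnion.1 hω
      exact mem_iUnion.2 ⟨n + 1, by simpa [he'] using hn⟩
    · exact mem_iUnion.2 ⟨0, by simpa [he'] using hω⟩
  have h2 : μ (U e ∪ A i) ≤ μ (U e) :=
    (measure_mono h1).trans ((le_iSup (fun e => μ (U e)) e').trans hge)
  have h3 : μ (A i \ U e) = 0 := by
    have h4 : μ (U e) + μ (A i \ U e) = μ (U e ∪ A i) :=
      measure_add_sdiff (hUm e).nullMeasurableSet (A i)
    rw [← h4] at h2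
    have h5 : μ (U e) + μ (A i \ U e) ≤ μ (U e) + 0 := by simpa using h2
    exact le_antisymm (ENNReal.le_of_add_le_add_left (measure_ne_top μ _) h5) (by simp)
  rw [ae_iff]
  refine measure_mono_null (fun ω hω => ?_) h3
  simp only [mem_ofPred_eq, Classical.not_imp, not_exists] at hω
  exact ⟨hω.1, fun h => by obtain ⟨n, hn⟩ := mem_iUnion.1 h; exact hω.2 n hn⟩

/-- A positive set covered a.e. by countably many sets meets one of them positively. -/
theorem pick {ι : Type} [Countable ι] {p : Set Ω} (hp : μ p ≠ 0) (A : ι → Set Ω)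
    (h : ∀ᵐ ω ∂μ, ω ∈ p → ∃ i, ω ∈ A i) : ∃ i, μ (p ∩ A i) ≠ 0 := by
  by_contra hcon
  push Not at hcon
  apply hp
  have h1 : ∀ᵐ ω ∂μ, ∀ i, ω ∉ p ∩ A i :=
    ae_all_iff.2 fun i => measure_eq_zero_iff_ae_notMem.1 (hcon i)
  rw [measure_eq_zero_iff_ae_notMem]
  filter_upwards [h, h1] with ω h2 h3 h4
  obtain ⟨i, hi⟩ := h2 h4
  exact h3 i ⟨h4, hi⟩

theorem exists_of_ae {p : Set Ω} (hp : μ p ≠ 0) {φ : Ω → Prop} (h : ∀ᵐ ω ∂μ, φ ω) :
    ∃ ω ∈ p, φ ω := by
  by_contra hcon
  push Not at hcon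
  apply hp
  rw [measure_eq_zero_iff_ae_notMem]
  filter_upwards [h] with ω h1 h2
  exact hcon ω h2 h1

/-- For every countable family of events there is a fresh random function. -/
def Fresh (μ : Measure Ω) : Prop :=
  ∀ (ι : Type) [Countable ι] (E : ι → Set Ω), (∀ i, MeasurableSet (E i)) →
    ∃ g : ℕ → Ω → ℕ, (∀ n j, MeasurableSet {ω | g n ω = j}) ∧
      ∃ m : MeasurableSpace Ω, (∀ i, MeasurableSet[m] (E i)) ∧
      ∀ n j (A : Set Ω), MeasurableSet[m] A → μ (A ∩ {ω | g n ω = j}) ≤ μ A * 2⁻¹ ^ n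

end General

/-- The sample space. -/
abbrev Om : Type := (x : ℝ × ℕ) → Fin (2 ^ x.2)

instance finNe (x : ℝ × ℕ) : Nonempty (Fin (2 ^ x.2)) := ⟨⟨0, by positivity⟩⟩

/-- The product measure. -/
noncomputable def mu : Measure Om := Measure.infinitePi fun _ => uniformOn univ

instance muProb : IsProbabilityMeasure mu := by
  unfold mu; infer_instance

/-- The sigma-algebra of one coordinate. -/
@[reducible] def co (x : ℝ × ℕ) : MeasurableSpace Om :=
  MeasurableSpace.comap (fun ω : Om => ω x) inferInstance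

theorem countable_support (E : Set Om) (hE : MeasurableSet E) :
    ∃ A : Set (ℝ × ℕ), A.Countable ∧ MeasurableSet[⨆ x ∈ A, co x] E := by
  let M : MeasurableSpace Om :=
    { MeasurableSet' := fun E => ∃ A : Set (ℝ × ℕ), A.Countable ∧ MeasurableSet[⨆ x ∈ A, co x] E
      measurableSet_empty := ⟨∅, countable_empty, @MeasurableSet.empty _ (_)⟩
      measurableSet_compl := fun s ⟨A, hA, h⟩ => ⟨A, hA, h.compl⟩
      measurableSet_iUnion := fun f hf => by
        choose A hA h using hf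
        refine ⟨⋃ n, A n, countable_iUnion hA, MeasurableSet.iUnion fun n => ?_⟩
        exact (biSup_mono (f := co) (fun x hx => mem_iUnion.2 ⟨n, hx⟩)) _ (h n) }
  have : (MeasurableSpace.pi : MeasurableSpace Om) ≤ M := by
    refine iSup_le fun x s hs => ⟨{x}, countable_singleton x, ?_⟩
    exact (le_biSup co (mem_singleton x)) _ hs
  exact this E hE

theorem fresh_mu : Fresh mu := by
  intro ι _ E hE
  choose A hA h using fun i => countable_support (E i) (hE i)
  have hc : (Prod.fst '' ⋃ i, A i).Countable := (countable_iUnion hA).image _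
  obtain ⟨a, ha⟩ : ∃ a : ℝ, a ∉ Prod.fst '' ⋃ i, A i := by
    by_contra hcon
    push Not at hcon
    exact Cardinal.not_countable_real (hc.mono fun a _ => hcon a)
  have hmeas : ∀ n j, MeasurableSet[co (a, n)] {ω : Om | (ω (a, n) : ℕ) = j} := fun n j =>
    ⟨{y : Fin (2 ^ n) | (y : ℕ) = j}, MeasurableSet.of_discrete, rfl⟩
  have hle : ∀ x, co x ≤ (MeasurableSpace.pi : MeasurableSpace Om) := fun x =>
    (measurable_pi_apply x).comap_le
  refine ⟨fun n ω => (ω (a, n) : ℕ), fun n j => ?_, ⨆ x ∈ ⋃ i, A i, co x, fun i => ?_, ?_⟩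
  · exact hle _ _ (hmeas n j)
  · exact (biSup_mono (f := co) (fun x hx => mem_iUnion.2 ⟨i, hx⟩)) _ (h i)
  · intro n j B hB
    have hind : iIndep co mu :=
      (iIndepFun_infinitePi (P := fun x : ℝ × ℕ => (uniformOn univ : Measure (Fin (2 ^ x.2))))
        (X := fun _ y => y) (fun _ => measurable_id)).iIndep
    have hdis : Disjoint (⋃ i, A i) {(a, n)} := by
      rw [disjoint_singleton_right]
      exact fun hx => ha ⟨_, hx, rfl⟩
    have h1 := (Indep_iff _ _ _).1 (indep_iSup_of_disjoint hle hind hdis) B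
      {ω : Om | (ω (a, n) : ℕ) = j} hB ((le_biSup co (mem_singleton (a, n))) _ (hmeas n j))
    rw [h1]
    gcongr
    have h2 : mu {ω : Om | (ω (a, n) : ℕ) = j} =
        (uniformOn univ : Measure (Fin (2 ^ n))) {y | (y : ℕ) = j} := by
      rw [← Measure.infinitePi_map_eval
        (fun x : ℝ × ℕ => (uniformOn univ : Measure (Fin (2 ^ x.2)))) (a, n),
        Measure.map_apply (measurable_pi_apply _) MeasurableSet.of_discrete]
      rfl
    rw [h2, uniformOn_univ]
    have h3 : Measure.count {y : Fin (2 ^ n) | (y : ℕ) = j} ≤ 1 := by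
      by_cases hj : j < 2 ^ n
      · have : {y : Fin (2 ^ n) | (y : ℕ) = j} = {⟨j, hj⟩} := by
          ext y; simp [Fin.ext_iff]
        rw [this, Measure.count_singleton]
      · have : {y : Fin (2 ^ n) | (y : ℕ) = j} = ∅ := by
          ext y; simp only [mem_ofPred_eq, mem_empty_iff_false, iff_false]
          intro hy; exact hj (hy ▸ y.2)
        rw [this]; simp
    calc Measure.count {y : Fin (2 ^ n) | (y : ℕ) = j} / (Fintype.card (Fin (2 ^ n)) : ℝ≥0∞)
        ≤ 1 / (Fintype.card (Fin (2 ^ n)) : ℝ≥0∞) := by gcongr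
      _ = 2⁻¹ ^ n := by simp [ENNReal.inv_pow]

end Pool.Agent.H65Z.HC
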